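import Mathlib
import Pool.Agent.Lib.MP_ec946a_Games.Defs

/-!
# The basic semidefinite relaxation of a 2-to-1 game
-/

set_option autoImplicit false
set_option linter.unusedSectionVars false

namespace Pool.Agent.MP_ec946a

open Finset

/-- A feasible solution in `ℝ^n` of the basic semidefinite relaxation of the game `G`: a unit
vector `x₀`, for every vertex `u` of `U` pairwise orthogonal vectors `x u a` with sum `x₀`, for
every vertex `v` of `V` pairwise orthogonal vectors `y v b` with sum `x₀`, such that for every edge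
`e` the numbers `⟪x (src e) a, y (tgt e) b⟫` (the probabilities of the pairs of labels) are
nonnegative. -/
structure Game.SDPSolution {q : ℕ} (G : Game q) (n : ℕ) where
  x₀ : EuclideanSpace ℝ (Fin n)
  x : G.U → Fin q → EuclideanSpace ℝ (Fin n)
  y : G.V → Fin q → EuclideanSpace ℝ (Fin n)
  norm_x₀ : ‖x₀‖ = 1
  sum_x : ∀ u, ∑ a, x u a = x₀
  sum_y : ∀ v, ∑ b, y v b = x₀
  orth_x : ∀ u a a', a ≠ a' → inner ℝ (x u a) (x u a') = 0
  orth_y : ∀ v b b', b ≠ b' → inner ℝ (y v b) (y v b') = 0
  nonneg : ∀ e a b, 0 ≤ inner ℝ (x (G.src e) a) (y (G.tgt e) b)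

/-- The objective of the relaxation: the mean over the edges `e` of the probability that the edge
is satisfied. -/
noncomputable def Game.SDPSolution.obj {q : ℕ} {G : Game q} {n : ℕ} (σ : G.SDPSolution n) : ℝ :=
  (∑ e, ∑ a, inner ℝ (σ.x (G.src e) a) (σ.y (G.tgt e) (G.proj e a))) / Nat.card G.E

namespace SDP

variable {q : ℕ} {G : Game q}

lemma obj_le_one {n : ℕ} (σ : G.SDPSolution n) : σ.obj ≤ 1 := by
  unfold Game.SDPSolution.obj
  have hE : (0 : ℝ) < (Nat.card G.E : ℝ) := by exact_mod_cast Nat.card_pos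
  rw [div_le_one hE]
  have h : ∀ e : G.E, ∑ a, inner ℝ (σ.x (G.src e) a) (σ.y (G.tgt e) (G.proj e a)) ≤ 1 := by
    intro e
    have h1 : inner ℝ σ.x₀ σ.x₀ = (1 : ℝ) := by
      rw [real_inner_self_eq_norm_sq, σ.norm_x₀, one_pow]
    have h2 : inner ℝ (∑ a, σ.x (G.src e) a) (∑ b, σ.y (G.tgt e) b) = (1 : ℝ) := by
      rw [σ.sum_x, σ.sum_y, h1]
    rw [← h2, sum_inner]
    refine sum_le_sum fun a _ => ?_
    rw [inner_sum]
    exact single_le_sum (f := fun b => inner ℝ (σ.x (G.src e) a) (σ.y (G.tgt e) b))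
      (fun b _ => σ.nonneg e a b) (mem_univ (G.proj e a))
  refine (sum_le_sum fun e _ => h e).trans ?_
  rw [sum_const, card_univ, nsmul_eq_mul, mul_one, Nat.card_eq_fintype_card]

/-- If the vectors of the vertices of `V` are the sums of the vectors over the fibres of the
projections, the relaxation has value one. -/
theorem isGreatest_one {n : ℕ} (x₀ : EuclideanSpace ℝ (Fin n))
    (x : G.U → Fin q → EuclideanSpace ℝ (Fin n)) (y : G.V → Fin q → EuclideanSpace ℝ (Fin n))
    (h0 : ‖x₀‖ = 1) (hx : ∀ u, ∑ a, x u a = x₀)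
    (horth : ∀ u a a', a ≠ a' → inner ℝ (x u a) (x u a') = 0)
    (hsurj : Function.Surjective G.tgt)
    (hy : ∀ e b, y (G.tgt e) b = ∑ a ∈ univ.filter (fun a => G.proj e a = b), x (G.src e) a) :
    IsGreatest {r : ℝ | ∃ (n : ℕ) (σ : G.SDPSolution n), σ.obj = r} 1 := by
  have hin : ∀ e a b, inner ℝ (x (G.src e) a) (y (G.tgt e) b)
      = if G.proj e a = b then inner ℝ (x (G.src e) a) (x (G.src e) a) else (0 : ℝ) := by
    intro e a b
    rw [hy, inner_sum]
    split_ifs with h
    · rw [sum_eq_single_of_mem a (mem_filter.mpr ⟨mem_univ _, h⟩)]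
      intro a' _ ha'
      exact horth _ _ _ (Ne.symm ha')
    · refine sum_eq_zero fun a' ha' => ?_
      refine horth _ _ _ ?_
      rintro rfl
      exact h (mem_filter.mp ha').2
  let σ : G.SDPSolution n :=
    { x₀ := x₀
      x := x
      y := y
      norm_x₀ := h0
      sum_x := hx
      sum_y := by
        intro v
        obtain ⟨e, rfl⟩ := hsurj v
        rw [sum_congr rfl fun b _ => hy e b, sum_fiberwise, hx]
      orth_x := horth
      orth_y := by
        intro v b b' hb
        obtain ⟨e, rfl⟩ := hsurj v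
        rw [hy, sum_inner]
        refine sum_eq_zero fun a ha => ?_
        rw [hin, if_neg]
        rw [(mem_filter.mp ha).2]
        exact hb
      nonneg := by
        intro e a b
        rw [hin]
        split_ifs
        · exact real_inner_self_nonneg
        · exact le_refl _ }
  refine ⟨⟨n, σ, ?_⟩, ?_⟩
  · have h1 : ∀ e : G.E, ∑ a, inner ℝ (σ.x (G.src e) a) (σ.y (G.tgt e) (G.proj e a)) = (1 : ℝ) := by
      intro e
      have h2 : inner ℝ x₀ x₀ = (1 : ℝ) := by
        rw [real_inner_self_eq_norm_sq, h0, one_pow]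
      have h3 : inner ℝ (∑ a, x (G.src e) a) (∑ a, x (G.src e) a) = (1 : ℝ) := by
        rw [hx, h2]
      rw [← h3, sum_inner]
      refine sum_congr rfl fun a _ => ?_
      show inner ℝ (x (G.src e) a) (y (G.tgt e) (G.proj e a)) = _
      rw [hin, if_pos rfl, inner_sum, sum_eq_single_of_mem a (mem_univ _)]
      intro a' _ ha'
      exact horth _ _ _ (Ne.symm ha')
    have hE : (0 : ℝ) < (Nat.card G.E : ℝ) := by exact_mod_cast Nat.card_pos
    unfold Game.SDPSolution.obj
    rw [sum_congr rfl fun e _ => h1 e, sum_const, card_univ, nsmul_eq_mul, mul_one,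
      ← Nat.card_eq_fintype_card, div_self hE.ne']
  · rintro r ⟨m, τ, rfl⟩
    exact obj_le_one τ

end SDP

end Pool.Agent.MP_ec946a
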