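import Mathlib

/-!
# Uniform smoothness of the cubic mean

The squared cubic mean `nn P F = (average over P of |F|^3)^(2/3)` of a real function on a finite
set satisfies `nn (F + G) + nn (F - G) ≤ 2 nn F + 4 nn G`.
-/

set_option autoImplicit false

namespace Pool.Agent.MP_ec946a.SDP

open Finset

variable {D : Type}

/-- the square of the cubic mean of `F` over the finite set `P` -/
noncomputable def nn (P : Finset D) (F : D → ℝ) : ℝ :=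
  ((P.card : ℝ)⁻¹ * ∑ d ∈ P, |F d| ^ 3) ^ (2 / 3 : ℝ)

lemma nn_nonneg (P : Finset D) (F : D → ℝ) : 0 ≤ nn P F := by
  unfold nn
  exact Real.rpow_nonneg (mul_nonneg (by positivity) (sum_nonneg fun _ _ => by positivity)) _

lemma nn_congr {P : Finset D} {F G : D → ℝ} (h : ∀ d ∈ P, |F d| = |G d|) : nn P F = nn P G := by
  unfold nn
  rw [sum_congr rfl fun d hd => by rw [h d hd]]

lemma two_point_sq (a b : ℝ) :
    ((|a + b| ^ 3 + |a - b| ^ 3) / 2) ^ 2 ≤ (a ^ 2 + 2 * b ^ 2) ^ 3 := by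
  set s := |a + b| with hs
  set t := |a - b| with ht
  have hs0 : 0 ≤ s := abs_nonneg _
  have ht0 : 0 ≤ t := abs_nonneg _
  have hs2 : s ^ 2 = (a + b) ^ 2 := sq_abs _
  have ht2 : t ^ 2 = (a - b) ^ 2 := sq_abs _
  have hst : s * t = |a ^ 2 - b ^ 2| := by
    rw [hs, ht, ← abs_mul]
    congr 1
    ring
  have hfac : (s ^ 3 + t ^ 3) / 2 = (s + t) * (s ^ 2 + t ^ 2 - s * t) / 2 := by ring
  have hsq : (s + t) ^ 2 = s ^ 2 + t ^ 2 + 2 * (s * t) := by ring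
  have h0 : ((s ^ 3 + t ^ 3) / 2) ^ 2 = (s + t) ^ 2 * (s ^ 2 + t ^ 2 - s * t) ^ 2 / 4 := by
    rw [hfac]
    ring
  rw [h0, hsq, hs2, ht2, hst]
  have hA : 0 ≤ a ^ 2 := sq_nonneg a
  have hB : 0 ≤ b ^ 2 := sq_nonneg b
  rcases le_total (b ^ 2) (a ^ 2) with h | h
  · rw [abs_of_nonneg (by linarith)]
    have e1 : ((a + b) ^ 2 + (a - b) ^ 2 + 2 * (a ^ 2 - b ^ 2))
        * ((a + b) ^ 2 + (a - b) ^ 2 - (a ^ 2 - b ^ 2)) ^ 2 / 4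
        = a ^ 2 * (a ^ 2 + 3 * b ^ 2) ^ 2 := by ring
    rw [e1]
    have e2 : (a ^ 2 + 2 * b ^ 2) ^ 3 - a ^ 2 * (a ^ 2 + 3 * b ^ 2) ^ 2
        = 3 * a ^ 2 * (b ^ 2) ^ 2 + 8 * (b ^ 2) ^ 3 := by ring
    have e3 : 0 ≤ 3 * a ^ 2 * (b ^ 2) ^ 2 + 8 * (b ^ 2) ^ 3 := by positivity
    linarith
  · rw [abs_of_nonpos (by linarith)]
    have e1 : ((a + b) ^ 2 + (a - b) ^ 2 + 2 * -(a ^ 2 - b ^ 2))
        * ((a + b) ^ 2 + (a - b) ^ 2 - -(a ^ 2 - b ^ 2)) ^ 2 / 4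
        = b ^ 2 * (b ^ 2 + 3 * a ^ 2) ^ 2 := by ring
    rw [e1]
    have e2 : (a ^ 2 + 2 * b ^ 2) ^ 3 - b ^ 2 * (b ^ 2 + 3 * a ^ 2) ^ 2
        = (a ^ 2) ^ 3 + 7 * (b ^ 2) ^ 3 + 3 * a ^ 2 * b ^ 2 * (b ^ 2 - a ^ 2)
          + 3 * a ^ 2 * (b ^ 2) ^ 2 := by ring
    have e3 : 0 ≤ 3 * a ^ 2 * b ^ 2 * (b ^ 2 - a ^ 2) :=
      mul_nonneg (by positivity) (by linarith)
    have e4 : 0 ≤ (a ^ 2) ^ 3 + 7 * (b ^ 2) ^ 3 + 3 * a ^ 2 * (b ^ 2) ^ 2 := by positivity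
    linarith

lemma two_point (a b : ℝ) :
    (|a + b| ^ 3 + |a - b| ^ 3) / 2 ≤ (a ^ 2 + 2 * b ^ 2) ^ (3 / 2 : ℝ) := by
  have h := two_point_sq a b
  have h0 : 0 ≤ (|a + b| ^ 3 + |a - b| ^ 3) / 2 := by positivity
  have hR : 0 ≤ a ^ 2 + 2 * b ^ 2 := by positivity
  have e : ((a ^ 2 + 2 * b ^ 2) ^ (3 / 2 : ℝ)) ^ 2 = (a ^ 2 + 2 * b ^ 2) ^ 3 := by
    rw [← Real.rpow_natCast, ← Real.rpow_mul hR, ← Real.rpow_natCast]
    norm_num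
  exact (pow_le_pow_iff_left₀ h0 (Real.rpow_nonneg hR _) two_ne_zero).mp (by rw [e]; exact h)

lemma sq_rpow (a : ℝ) : (a ^ 2) ^ (3 / 2 : ℝ) = |a| ^ 3 := by
  rw [← sq_abs, ← Real.rpow_natCast, ← Real.rpow_mul (abs_nonneg _), ← Real.rpow_natCast]
  norm_num

/-- midpoint concavity of the power `2/3` -/
lemma half_add_rpow {x y : ℝ} (hx : 0 ≤ x) (hy : 0 ≤ y) :
    x ^ (2 / 3 : ℝ) + y ^ (2 / 3 : ℝ) ≤ 2 * ((x + y) / 2) ^ (2 / 3 : ℝ) := by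
  have h := (Real.concaveOn_rpow (p := 2 / 3) (by norm_num) (by norm_num)).2 hx hy
    (show (0 : ℝ) ≤ 1 / 2 by norm_num) (show (0 : ℝ) ≤ 1 / 2 by norm_num) (by norm_num)
  simp only [smul_eq_mul] at h
  have e : 1 / 2 * x + 1 / 2 * y = (x + y) / 2 := by ring
  rw [e] at h
  linarith

theorem nn_smooth (P : Finset D) (F G : D → ℝ) :
    nn P (fun d => F d + G d) + nn P (fun d => F d - G d) ≤ 2 * (nn P F + 2 * nn P G) := by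
  have hc : (0 : ℝ) ≤ (P.card : ℝ)⁻¹ := by positivity
  have hx : 0 ≤ (P.card : ℝ)⁻¹ * ∑ d ∈ P, |F d + G d| ^ 3 :=
    mul_nonneg hc (sum_nonneg fun _ _ => by positivity)
  have hy : 0 ≤ (P.card : ℝ)⁻¹ * ∑ d ∈ P, |F d - G d| ^ 3 :=
    mul_nonneg hc (sum_nonneg fun _ _ => by positivity)
  have h1 := half_add_rpow hx hy
  refine le_trans h1 (mul_le_mul_of_nonneg_left ?_ (by norm_num))
  have h2 : ((P.card : ℝ)⁻¹ * ∑ d ∈ P, |F d + G d| ^ 3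
      + (P.card : ℝ)⁻¹ * ∑ d ∈ P, |F d - G d| ^ 3) / 2
      ≤ (P.card : ℝ)⁻¹ * ∑ d ∈ P, ((F d) ^ 2 + 2 * (G d) ^ 2) ^ (3 / 2 : ℝ) := by
    rw [← mul_add, ← sum_add_distrib, mul_div_assoc, sum_div]
    exact mul_le_mul_of_nonneg_left (sum_le_sum fun d _ => two_point _ _) hc
  have h3 := Real.rpow_le_rpow (by linarith [hx, hy]) h2 (show (0 : ℝ) ≤ 2 / 3 by norm_num)
  refine le_trans h3 ?_
  have hs0 : 0 ≤ ∑ d ∈ P, ((F d) ^ 2 + 2 * (G d) ^ 2) ^ (3 / 2 : ℝ) :=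
    sum_nonneg fun d _ => Real.rpow_nonneg (by positivity) _
  have h4 := Real.Lp_add_le_of_nonneg (s := P) (p := 3 / 2) (f := fun d => (F d) ^ 2)
    (g := fun d => 2 * (G d) ^ 2) (by norm_num) (fun d _ => by positivity)
    (fun d _ => by positivity)
  have e1 : (1 / (3 / 2) : ℝ) = 2 / 3 := by norm_num
  rw [e1] at h4
  have e2 : ∀ d, (2 * (G d) ^ 2) ^ (3 / 2 : ℝ) = (2 : ℝ) ^ (3 / 2 : ℝ) * |G d| ^ 3 := by
    intro d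
    rw [Real.mul_rpow (by norm_num) (by positivity), sq_rpow]
  have e3 : (∑ d ∈ P, (2 * (G d) ^ 2) ^ (3 / 2 : ℝ)) ^ (2 / 3 : ℝ)
      = 2 * (∑ d ∈ P, |G d| ^ 3) ^ (2 / 3 : ℝ) := by
    rw [sum_congr rfl fun d _ => e2 d, ← mul_sum, Real.mul_rpow (by positivity)
      (sum_nonneg fun _ _ => by positivity), ← Real.rpow_mul (by norm_num)]
    norm_num
  have e4 : (∑ d ∈ P, ((F d) ^ 2) ^ (3 / 2 : ℝ)) ^ (2 / 3 : ℝ)
      = (∑ d ∈ P, |F d| ^ 3) ^ (2 / 3 : ℝ) := by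
    rw [sum_congr rfl fun d _ => sq_rpow (F d)]
  rw [e3, e4] at h4
  unfold nn
  rw [Real.mul_rpow hc hs0, Real.mul_rpow hc (sum_nonneg fun _ _ => by positivity),
    Real.mul_rpow hc (sum_nonneg fun _ _ => by positivity)]
  have h5 := mul_le_mul_of_nonneg_left h4 (Real.rpow_nonneg hc (2 / 3))
  linarith

/-- two halves -/
lemma half_sum_rpow {x y : ℝ} (hx : 0 ≤ x) (hy : 0 ≤ y) :
    ((x + y) / 2) ^ (2 / 3 : ℝ) ≤ (2 : ℝ) ^ (-(2 / 3) : ℝ) * (x ^ (2 / 3 : ℝ) + y ^ (2 / 3 : ℝ)) := by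
  have h1 : (x + y) ^ (2 / 3 : ℝ) ≤ x ^ (2 / 3 : ℝ) + y ^ (2 / 3 : ℝ) := by
    have h := NNReal.rpow_add_le_add_rpow (p := 2 / 3) ⟨x, hx⟩ ⟨y, hy⟩ (by norm_num) (by norm_num)
    exact_mod_cast h
  have h2 : ((x + y) / 2) ^ (2 / 3 : ℝ) = (2 : ℝ) ^ (-(2 / 3) : ℝ) * (x + y) ^ (2 / 3 : ℝ) := by
    rw [Real.div_rpow (by linarith) (by norm_num), Real.rpow_neg (by norm_num)]
    field_simp
  rw [h2]
  exact mul_le_mul_of_nonneg_left h1 (by positivity)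

end Pool.Agent.MP_ec946a.SDP
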