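import Mathlib
import Pool.Agent.Lib.MP_ec946a_sdp.Smooth

/-!
# Bonami's inequality with the rank in place of the degree

`Ω` is a finite set of bits, `D` a finite group acting on the strings of bits by adding the string
`(ℓ i d)_i`.  For a set `T` of bits `ker ℓ T` is the subgroup fixing the bits of `T`.  The theorem
`bonami` bounds the mean of the squared cubic mean over the orbits of `ker ℓ T` by the sum over the
Fourier coefficients with the weights `[ker T : ker (T ∪ S)]^(4/3)`.
-/

set_option autoImplicit false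
set_option linter.unusedSectionVars false

namespace Pool.Agent.MP_ec946a.SDP

open Finset

/-- the sign of a bit -/
def sgn (b : ZMod 2) : ℝ := if b = 0 then 1 else -1

lemma sgn_zero : sgn 0 = 1 := by simp [sgn]

lemma sgn_one : sgn 1 = -1 := by simp [sgn]

lemma zmod2 (a : ZMod 2) : a = 0 ∨ a = 1 := by
  fin_cases a
  · exact Or.inl rfl
  · exact Or.inr rfl

lemma sgn_add (a b : ZMod 2) : sgn (a + b) = sgn a * sgn b := by
  have h : (1 : ZMod 2) + 1 = 0 := rfl
  rcases zmod2 a with rfl | rfl <;> rcases zmod2 b with rfl | rfl <;>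
    simp [sgn_zero, sgn_one, h]

lemma sgn_eq (a : ZMod 2) : sgn a = 1 ∨ sgn a = -1 := by
  rcases zmod2 a with rfl | rfl
  · exact Or.inl sgn_zero
  · exact Or.inr sgn_one

lemma abs_sgn (a : ZMod 2) : |sgn a| = 1 := by
  rcases sgn_eq a with h | h <;> rw [h] <;> simp

lemma sgn_mul_self (a : ZMod 2) : sgn a * sgn a = 1 := by
  rcases sgn_eq a with h | h <;> rw [h] <;> norm_num

variable {Ω D : Type} [Fintype Ω] [DecidableEq Ω] [Fintype D] [DecidableEq D] [AddCommGroup D]

/-- the Walsh functions -/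
noncomputable def walsh (S : Finset Ω) (x : Ω → ZMod 2) : ℝ := ∏ i ∈ S, sgn (x i)

lemma walsh_add (S : Finset Ω) (x y : Ω → ZMod 2) :
    walsh S (x + y) = walsh S x * walsh S y := by
  unfold walsh
  rw [← prod_mul_distrib]
  exact prod_congr rfl fun i _ => sgn_add _ _

lemma walsh_insert {S : Finset Ω} {j : Ω} (hj : j ∉ S) (x : Ω → ZMod 2) :
    walsh (insert j S) x = sgn (x j) * walsh S x := by
  unfold walsh
  rw [prod_insert hj]

lemma walsh_flip {S : Finset Ω} {j : Ω} (hj : j ∉ S) (x : Ω → ZMod 2) :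
    walsh S (x + Pi.single j 1) = walsh S x := by
  unfold walsh
  refine prod_congr rfl fun i hi => ?_
  have hij : i ≠ j := fun h => hj (h ▸ hi)
  rw [Pi.add_apply, Pi.single_eq_of_ne hij, add_zero]

/-- the action of `D` on the strings of bits -/
def sh (ℓ : Ω → (D →+ ZMod 2)) (d : D) : Ω → ZMod 2 := fun i => ℓ i d

lemma sh_add (ℓ : Ω → (D →+ ZMod 2)) (d e : D) : sh ℓ (d + e) = sh ℓ d + sh ℓ e := by
  funext i
  exact map_add (ℓ i) d e

/-- the elements of `D` which fix the bits of `T` -/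
def ker (ℓ : Ω → (D →+ ZMod 2)) (T : Finset Ω) : Finset D :=
  univ.filter fun d => ∀ i ∈ T, ℓ i d = 0

lemma mem_ker {ℓ : Ω → (D →+ ZMod 2)} {T : Finset Ω} {d : D} :
    d ∈ ker ℓ T ↔ ∀ i ∈ T, ℓ i d = 0 := by
  simp [ker]

lemma zero_mem_ker (ℓ : Ω → (D →+ ZMod 2)) (T : Finset Ω) : (0 : D) ∈ ker ℓ T :=
  mem_ker.mpr fun i _ => map_zero (ℓ i)

lemma card_ker_pos (ℓ : Ω → (D →+ ZMod 2)) (T : Finset Ω) : 0 < (ker ℓ T).card :=
  card_pos.mpr ⟨0, zero_mem_ker ℓ T⟩

section coset

variable (ℓ : Ω → (D →+ ZMod 2)) (T : Finset Ω) {j : Ω} {d₀ : D}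

lemma ker_split (hd₀ : d₀ ∈ ker ℓ T) (hj : ℓ j d₀ = 1) (φ : D → ℝ) :
    ∑ d ∈ ker ℓ T, φ d
      = ∑ d ∈ ker ℓ (insert j T), φ d + ∑ d ∈ ker ℓ (insert j T), φ (d + d₀) := by
  have h1 : ker ℓ T = ker ℓ (insert j T) ∪ (ker ℓ (insert j T)).image (· + d₀) := by
    ext d
    rw [mem_union, mem_image, mem_ker, mem_ker]
    constructor
    · intro h
      rcases zmod2 (ℓ j d) with h0 | h0
      · left
        intro i hi
        rcases mem_insert.mp hi with rfl | hi
        · exact h0
        · exact h i hi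
      · right
        refine ⟨d - d₀, ?_, sub_add_cancel _ _⟩
        rw [mem_ker]
        intro i hi
        rw [map_sub]
        rcases mem_insert.mp hi with rfl | hi
        · rw [h0, hj, sub_self]
        · rw [h i hi, mem_ker.mp hd₀ i hi, sub_self]
    · rintro (h | ⟨e, he, rfl⟩)
      · exact fun i hi => h i (mem_insert_of_mem hi)
      · intro i hi
        rw [map_add, mem_ker.mp he i (mem_insert_of_mem hi), mem_ker.mp hd₀ i hi, add_zero]
  have h2 : Disjoint (ker ℓ (insert j T)) ((ker ℓ (insert j T)).image (· + d₀)) := by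
    rw [disjoint_left]
    intro d hd hd'
    obtain ⟨e, he, rfl⟩ := mem_image.mp hd'
    have h3 := mem_ker.mp hd j (mem_insert_self _ _)
    rw [map_add, mem_ker.mp he j (mem_insert_self _ _), hj, zero_add] at h3
    exact one_ne_zero h3
  conv_lhs => rw [h1]
  rw [sum_union h2, sum_image fun a _ b _ h => add_right_cancel h]

lemma card_ker_split (hd₀ : d₀ ∈ ker ℓ T) (hj : ℓ j d₀ = 1) :
    ((ker ℓ T).card : ℝ) = 2 * (ker ℓ (insert j T)).card := by
  have h := ker_split ℓ T hd₀ hj (fun _ => (1 : ℝ))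
  simp only [sum_const, nsmul_eq_mul, mul_one] at h
  rw [h]
  ring

lemma nn_split (hd₀ : d₀ ∈ ker ℓ T) (hj : ℓ j d₀ = 1) (F : D → ℝ) :
    nn (ker ℓ T) F ≤ (2 : ℝ) ^ (-(2 / 3) : ℝ)
      * (nn (ker ℓ (insert j T)) F + nn (ker ℓ (insert j T)) fun d => F (d + d₀)) := by
  set P := ker ℓ (insert j T) with hP
  have hc : (0 : ℝ) < (P.card : ℝ) := by exact_mod_cast card_ker_pos ℓ (insert j T)
  have e : ((ker ℓ T).card : ℝ)⁻¹ * ∑ d ∈ ker ℓ T, |F d| ^ 3
      = ((P.card : ℝ)⁻¹ * ∑ d ∈ P, |F d| ^ 3 + (P.card : ℝ)⁻¹ * ∑ d ∈ P, |F (d + d₀)| ^ 3) / 2 := by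
    rw [ker_split ℓ T hd₀ hj, card_ker_split ℓ T hd₀ hj, mul_inv]
    ring
  unfold nn
  rw [e]
  exact half_sum_rpow (mul_nonneg (by positivity) (sum_nonneg fun _ _ => by positivity))
    (mul_nonneg (by positivity) (sum_nonneg fun _ _ => by positivity))

end coset

/-- the function with the given Fourier coefficients -/
noncomputable def poly (A : Finset Ω) (c : Finset Ω → ℝ) (x : Ω → ZMod 2) : ℝ :=
  ∑ S ∈ A.powerset, c S * walsh S x

lemma poly_flip {A : Finset Ω} {j : Ω} (hj : j ∉ A) (c : Finset Ω → ℝ) (x : Ω → ZMod 2) :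
    poly A c (x + Pi.single j 1) = poly A c x := by
  unfold poly
  refine sum_congr rfl fun S hS => ?_
  rw [walsh_flip fun h => hj (mem_powerset.mp hS h)]

lemma poly_insert {A : Finset Ω} {j : Ω} (hj : j ∉ A) (c : Finset Ω → ℝ) (x : Ω → ZMod 2) :
    poly (insert j A) c x = poly A c x + sgn (x j) * poly A (fun S => c (insert j S)) x := by
  unfold poly
  rw [sum_powerset_insert hj, mul_sum]
  congr 1
  refine sum_congr rfl fun S hS => ?_
  rw [walsh_insert fun h => hj (mem_powerset.mp hS h)]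
  ring

lemma poly_add (A : Finset Ω) (c c' : Finset Ω → ℝ) (x : Ω → ZMod 2) :
    poly A (fun S => c S + c' S) x = poly A c x + poly A c' x := by
  unfold poly
  rw [← sum_add_distrib]
  exact sum_congr rfl fun S _ => by ring

lemma poly_sub (A : Finset Ω) (c c' : Finset Ω → ℝ) (x : Ω → ZMod 2) :
    poly A (fun S => c S - c' S) x = poly A c x - poly A c' x := by
  unfold poly
  rw [← sum_sub_distrib]
  exact sum_congr rfl fun S _ => by ring

/-- the weight `[ker T : ker (T ∪ S)]^(4/3)` -/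
noncomputable def wt (ℓ : Ω → (D →+ ZMod 2)) (T S : Finset Ω) : ℝ :=
  (((ker ℓ T).card : ℝ) / (ker ℓ (T ∪ S)).card) ^ (4 / 3 : ℝ)

/-- the mean over `x` of the squared cubic mean over the orbit of `x` -/
noncomputable def mean (ℓ : Ω → (D →+ ZMod 2)) (T : Finset Ω) (g : (Ω → ZMod 2) → ℝ) : ℝ :=
  ∑ x : Ω → ZMod 2, nn (ker ℓ T) fun d => g (x + sh ℓ d)

lemma sum_flip (j : Ω) (Φ : (Ω → ZMod 2) → ℝ) :
    ∑ x, Φ x = (∑ x, (Φ x + Φ (x + Pi.single j 1))) / 2 := by
  have h : ∑ x, Φ (x + Pi.single j 1) = ∑ x, Φ x :=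
    Fintype.sum_equiv (Equiv.addRight (Pi.single j 1 : Ω → ZMod 2)) _ _ fun _ => rfl
  rw [sum_add_distrib, h]
  ring

lemma mean_shift (ℓ : Ω → (D →+ ZMod 2)) (T : Finset Ω) (g : (Ω → ZMod 2) → ℝ) (d₀ : D) :
    ∑ x : Ω → ZMod 2, nn (ker ℓ T) (fun d => g (x + sh ℓ (d + d₀))) = mean ℓ T g := by
  unfold mean
  refine Fintype.sum_equiv (Equiv.addRight (sh ℓ d₀)) _ _ fun x => ?_
  show nn (ker ℓ T) (fun d => g (x + sh ℓ (d + d₀))) = nn (ker ℓ T) fun d => g (x + sh ℓ d₀ + sh ℓ d)
  congr 1
  funext d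
  rw [sh_add, add_assoc, add_comm (sh ℓ d)]

theorem bonami (ℓ : Ω → (D →+ ZMod 2)) (A : Finset Ω) : ∀ (T : Finset Ω) (c : Finset Ω → ℝ),
    mean ℓ T (poly A c)
      ≤ (Fintype.card (Ω → ZMod 2) : ℝ) * ∑ S ∈ A.powerset, wt ℓ T S * c S ^ 2 := by
  induction A using Finset.induction_on with
  | empty =>
    intro T c
    have hpos : (0 : ℝ) < (ker ℓ T).card := by exact_mod_cast card_ker_pos ℓ T
    have h1 : wt ℓ T ∅ = 1 := by
      unfold wt
      rw [union_empty, div_self hpos.ne', Real.one_rpow]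
    have h2 : ∀ x, nn (ker ℓ T) (fun d => poly ∅ c (x + sh ℓ d)) = c ∅ ^ 2 := by
      intro x
      have h3 : ∀ y : Ω → ZMod 2, poly ∅ c y = c ∅ := by
        intro y
        simp [poly, walsh]
      unfold nn
      simp only [h3, sum_const, nsmul_eq_mul]
      rw [← mul_assoc, inv_mul_cancel₀ hpos.ne', one_mul, ← Real.rpow_natCast,
        ← Real.rpow_mul (abs_nonneg _)]
      norm_num
    unfold mean
    simp only [h2, sum_const, nsmul_eq_mul, powerset_empty, sum_singleton, h1, one_mul,
      card_univ]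
    exact le_refl _
  | insert j A hj ih =>
    intro T c
    set c' : Finset Ω → ℝ := fun S => c (insert j S) with hc'
    set X : ℝ := (Fintype.card (Ω → ZMod 2) : ℝ) with hX
    have hX0 : 0 ≤ X := by positivity
    rw [sum_powerset_insert hj]
    -- the values at `x` and at the flipped string
    have hval : ∀ (x : Ω → ZMod 2) (d : D), poly (insert j A) c (x + sh ℓ d)
        = poly A c (x + sh ℓ d) + sgn (x j) * (sgn (ℓ j d) * poly A c' (x + sh ℓ d)) := by
      intro x d
      rw [poly_insert hj, Pi.add_apply, sgn_add, mul_assoc]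
      rfl
    have hval' : ∀ (x : Ω → ZMod 2) (d : D),
        poly (insert j A) c (x + Pi.single j 1 + sh ℓ d)
        = poly A c (x + sh ℓ d) - sgn (x j) * (sgn (ℓ j d) * poly A c' (x + sh ℓ d)) := by
      intro x d
      have e : x + Pi.single j 1 + sh ℓ d = (x + sh ℓ d) + Pi.single j 1 := add_right_comm _ _ _
      rw [e, poly_insert hj, poly_flip hj, poly_flip hj, Pi.add_apply, Pi.single_eq_same, sgn_add,
        sgn_one, Pi.add_apply, sgn_add]
      show poly A c (x + sh ℓ d) + sgn (x j) * sgn (ℓ j d) * -1 * poly A c' (x + sh ℓ d) = _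
      ring
    have hmean : mean ℓ T (poly (insert j A) c)
        = (∑ x : Ω → ZMod 2, (nn (ker ℓ T) (fun d => poly A c (x + sh ℓ d)
              + sgn (x j) * (sgn (ℓ j d) * poly A c' (x + sh ℓ d)))
            + nn (ker ℓ T) (fun d => poly A c (x + sh ℓ d)
              - sgn (x j) * (sgn (ℓ j d) * poly A c' (x + sh ℓ d))))) / 2 := by
      unfold mean
      rw [sum_flip j]
      congr 1
      refine sum_congr rfl fun x _ => ?_
      exact congrArg₂ (· + ·) (congrArg _ (funext fun d => hval x d))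
        (congrArg _ (funext fun d => hval' x d))
    rw [hmean]
    by_cases hex : ∃ d₀ ∈ ker ℓ T, ℓ j d₀ = 1
    · obtain ⟨d₀, hd₀, hj₀⟩ := hex
      have hb : ∀ x : Ω → ZMod 2, nn (ker ℓ T) (fun d => poly A c (x + sh ℓ d)
              + sgn (x j) * (sgn (ℓ j d) * poly A c' (x + sh ℓ d)))
            + nn (ker ℓ T) (fun d => poly A c (x + sh ℓ d)
              - sgn (x j) * (sgn (ℓ j d) * poly A c' (x + sh ℓ d)))
          ≤ 2 * (nn (ker ℓ T) (fun d => poly A c (x + sh ℓ d))
            + 2 * ((2 : ℝ) ^ (-(2 / 3) : ℝ)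
              * (nn (ker ℓ (insert j T)) (fun d => poly A c' (x + sh ℓ d))
                + nn (ker ℓ (insert j T)) fun d => poly A c' (x + sh ℓ (d + d₀))))) := by
        intro x
        refine (nn_smooth _ _ _).trans ?_
        refine mul_le_mul_of_nonneg_left (add_le_add le_rfl ?_) (by norm_num)
        refine mul_le_mul_of_nonneg_left ?_ (by norm_num)
        refine le_trans (le_of_eq ?_) (nn_split ℓ T hd₀ hj₀ fun d => poly A c' (x + sh ℓ d))
        refine nn_congr fun d _ => ?_
        rw [abs_mul, abs_mul, abs_sgn, abs_sgn, one_mul, one_mul]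
      have hsum := sum_le_sum fun (x : Ω → ZMod 2) (_ : x ∈ univ) => hb x
      have hw : ∀ S ∈ A.powerset, wt ℓ T (insert j S)
          = (2 : ℝ) ^ (4 / 3 : ℝ) * wt ℓ (insert j T) S := by
        intro S _
        unfold wt
        have e : T ∪ insert j S = insert j T ∪ S := by
          rw [union_insert, insert_union]
        rw [e, card_ker_split ℓ T hd₀ hj₀, mul_div_assoc, Real.mul_rpow (by norm_num)
          (by positivity)]
      have h1 := ih T c
      have h2 := ih (insert j T) c'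
      have e1 : ∑ x : Ω → ZMod 2, 2 * (nn (ker ℓ T) (fun d => poly A c (x + sh ℓ d))
            + 2 * ((2 : ℝ) ^ (-(2 / 3) : ℝ)
              * (nn (ker ℓ (insert j T)) (fun d => poly A c' (x + sh ℓ d))
                + nn (ker ℓ (insert j T)) fun d => poly A c' (x + sh ℓ (d + d₀)))))
          = 2 * (mean ℓ T (poly A c)
            + 2 * ((2 : ℝ) ^ (-(2 / 3) : ℝ) * (2 * mean ℓ (insert j T) (poly A c')))) := by
        rw [← mul_sum, sum_add_distrib, ← mul_sum, ← mul_sum, sum_add_distrib, mean_shift]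
        unfold mean
        ring
      rw [e1] at hsum
      have e2 : (2 : ℝ) * ((2 : ℝ) ^ (-(2 / 3) : ℝ) * 2) = (2 : ℝ) ^ (4 / 3 : ℝ) := by
        have : (4 / 3 : ℝ) = 1 + -(2 / 3) + 1 := by norm_num
        rw [this, Real.rpow_add (by norm_num), Real.rpow_add (by norm_num), Real.rpow_one]
        ring
      have e3 : ∑ S ∈ A.powerset, wt ℓ T (insert j S) * c (insert j S) ^ 2
          = (2 : ℝ) ^ (4 / 3 : ℝ) * ∑ S ∈ A.powerset, wt ℓ (insert j T) S * c' S ^ 2 := by
        rw [mul_sum]
        refine sum_congr rfl fun S hS => ?_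
        rw [hw S hS, mul_assoc]
      rw [e3]
      have h3 : (2 : ℝ) ^ (4 / 3 : ℝ) * mean ℓ (insert j T) (poly A c')
          ≤ (2 : ℝ) ^ (4 / 3 : ℝ) * (X * ∑ S ∈ A.powerset, wt ℓ (insert j T) S * c' S ^ 2) :=
        mul_le_mul_of_nonneg_left h2 (by positivity)
      have e4 : 2 * (mean ℓ T (poly A c)
            + 2 * ((2 : ℝ) ^ (-(2 / 3) : ℝ) * (2 * mean ℓ (insert j T) (poly A c')))) / 2
          = mean ℓ T (poly A c) + (2 : ℝ) ^ (4 / 3 : ℝ) * mean ℓ (insert j T) (poly A c') := by
        rw [← e2]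
        ring
      calc _ ≤ 2 * (mean ℓ T (poly A c)
            + 2 * ((2 : ℝ) ^ (-(2 / 3) : ℝ) * (2 * mean ℓ (insert j T) (poly A c')))) / 2 :=
            div_le_div_of_nonneg_right hsum (by norm_num)
        _ = mean ℓ T (poly A c) + (2 : ℝ) ^ (4 / 3 : ℝ) * mean ℓ (insert j T) (poly A c') := e4
        _ ≤ X * ∑ S ∈ A.powerset, wt ℓ T S * c S ^ 2
            + (2 : ℝ) ^ (4 / 3 : ℝ) * (X * ∑ S ∈ A.powerset, wt ℓ (insert j T) S * c' S ^ 2) :=
            add_le_add h1 h3
        _ = _ := by ring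
    · push Not at hex
      have h0 : ∀ d ∈ ker ℓ T, ℓ j d = 0 := fun d hd =>
        (zmod2 (ℓ j d)).resolve_right (hex d hd)
      have hw : ∀ S ∈ A.powerset, wt ℓ T (insert j S) = wt ℓ T S := by
        intro S _
        unfold wt
        have e : ker ℓ (T ∪ insert j S) = ker ℓ (T ∪ S) := by
          ext d
          rw [mem_ker, mem_ker]
          constructor
          · intro h i hi
            apply h
            rcases mem_union.mp hi with hi | hi
            · exact mem_union_left _ hi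
            · exact mem_union_right _ (mem_insert_of_mem hi)
          · intro h i hi
            rcases mem_union.mp hi with hi | hi
            · exact h i (mem_union_left _ hi)
            · rcases mem_insert.mp hi with rfl | hi
              · exact h0 d (mem_ker.mpr fun l hl => h l (mem_union_left _ hl))
              · exact h i (mem_union_right _ hi)
        rw [e]
      have hb : ∀ x : Ω → ZMod 2, nn (ker ℓ T) (fun d => poly A c (x + sh ℓ d)
              + sgn (x j) * (sgn (ℓ j d) * poly A c' (x + sh ℓ d)))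
            + nn (ker ℓ T) (fun d => poly A c (x + sh ℓ d)
              - sgn (x j) * (sgn (ℓ j d) * poly A c' (x + sh ℓ d)))
          = nn (ker ℓ T) (fun d => poly A (fun S => c S + c' S) (x + sh ℓ d))
            + nn (ker ℓ T) (fun d => poly A (fun S => c S - c' S) (x + sh ℓ d)) := by
        intro x
        rcases sgn_eq (x j) with hs | hs
        · congr 1
          · refine nn_congr fun d hd => ?_
            rw [hs, h0 d hd, sgn_zero, poly_add]
            ring_nf
          · refine nn_congr fun d hd => ?_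
            rw [hs, h0 d hd, sgn_zero, poly_sub]
            ring_nf
        · rw [add_comm]
          congr 1
          · refine nn_congr fun d hd => ?_
            rw [hs, h0 d hd, sgn_zero, poly_add]
            ring_nf
          · refine nn_congr fun d hd => ?_
            rw [hs, h0 d hd, sgn_zero, poly_sub]
            ring_nf
      rw [sum_congr rfl fun x _ => hb x, sum_add_distrib]
      have h1 := ih T (fun S => c S + c' S)
      have h2 := ih T (fun S => c S - c' S)
      unfold mean at h1 h2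
      have e3 : ∑ S ∈ A.powerset, wt ℓ T (insert j S) * c (insert j S) ^ 2
          = ∑ S ∈ A.powerset, wt ℓ T S * c' S ^ 2 := by
        refine sum_congr rfl fun S hS => ?_
        rw [hw S hS]
      rw [e3]
      have e4 : ∑ S ∈ A.powerset, wt ℓ T S * (c S + c' S) ^ 2
          + ∑ S ∈ A.powerset, wt ℓ T S * (c S - c' S) ^ 2
          = 2 * (∑ S ∈ A.powerset, wt ℓ T S * c S ^ 2
            + ∑ S ∈ A.powerset, wt ℓ T S * c' S ^ 2) := by
        rw [← sum_add_distrib, ← sum_add_distrib, mul_sum]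
        exact sum_congr rfl fun S _ => by ring
      have h3 : X * ∑ S ∈ A.powerset, wt ℓ T S * (c S + c' S) ^ 2
          + X * ∑ S ∈ A.powerset, wt ℓ T S * (c S - c' S) ^ 2
          = 2 * (X * (∑ S ∈ A.powerset, wt ℓ T S * c S ^ 2
            + ∑ S ∈ A.powerset, wt ℓ T S * c' S ^ 2)) := by
        rw [← mul_add, e4]
        ring
      linarith

end Pool.Agent.MP_ec946a.SDP
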