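import Mathlib
import Pool.Agent.Lib.MP_ec946a_sdp.Bonami

/-!
# Fourier coefficients of tiles

A tile is a set of strings which meets every orbit of `D` in one point.  Its Fourier coefficients,
weighted by the probability that a random element of `D` fixes all bits of `S`, have sum of squares
at most `|D|^(-5/4)`.
-/

set_option autoImplicit false
set_option linter.unusedSectionVars false

namespace Pool.Agent.MP_ec946a.SDP

open Finset

variable {Ω D : Type} [Fintype Ω] [DecidableEq Ω] [Fintype D] [DecidableEq D] [AddCommGroup D]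

/-- the Fourier coefficients -/
noncomputable def fou (f : (Ω → ZMod 2) → ℝ) (S : Finset Ω) : ℝ :=
  (Fintype.card (Ω → ZMod 2) : ℝ)⁻¹ * ∑ x, f x * walsh S x

lemma cardX_pos : (0 : ℝ) < (Fintype.card (Ω → ZMod 2) : ℝ) := by
  exact_mod_cast Fintype.card_pos

lemma sum_walsh (x y : Ω → ZMod 2) :
    ∑ S : Finset Ω, walsh S x * walsh S y
      = if x = y then (Fintype.card (Ω → ZMod 2) : ℝ) else 0 := by
  have h1 : ∑ S : Finset Ω, walsh S x * walsh S y = ∏ i : Ω, (1 + sgn (x i) * sgn (y i)) := by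
    rw [prod_one_add]
    rw [powerset_univ]
    refine sum_congr rfl fun S _ => ?_
    unfold walsh
    rw [prod_mul_distrib]
  rw [h1]
  split_ifs with h
  · subst h
    simp only [sgn_mul_self]
    rw [prod_const, card_univ, Fintype.card_fun, ZMod.card]
    norm_num
  · obtain ⟨i, hi⟩ := Function.ne_iff.mp h
    refine prod_eq_zero (mem_univ i) ?_
    rcases zmod2 (x i) with hx | hx <;> rcases zmod2 (y i) with hy | hy
    · exact absurd (hx.trans hy.symm) hi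
    · rw [hx, hy, sgn_zero, sgn_one]; norm_num
    · rw [hx, hy, sgn_zero, sgn_one]; norm_num
    · exact absurd (hx.trans hy.symm) hi

lemma poly_fou (f : (Ω → ZMod 2) → ℝ) (x : Ω → ZMod 2) : poly univ (fou f) x = f x := by
  unfold poly fou
  rw [powerset_univ]
  have h : ∀ S : Finset Ω, (Fintype.card (Ω → ZMod 2) : ℝ)⁻¹ * (∑ y, f y * walsh S y) * walsh S x
      = ∑ y, (Fintype.card (Ω → ZMod 2) : ℝ)⁻¹ * f y * (walsh S y * walsh S x) := by
    intro S
    rw [mul_sum, sum_mul]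
    exact sum_congr rfl fun y _ => by ring
  rw [sum_congr rfl fun S _ => h S, sum_comm]
  simp only [← mul_sum, sum_walsh]
  simp only [mul_ite, mul_zero, sum_ite_eq', mem_univ, if_true]
  have := cardX_pos (Ω := Ω)
  field_simp

/-- the scalar product with a function given by its coefficients -/
lemma pairing (f : (Ω → ZMod 2) → ℝ) (c : Finset Ω → ℝ) :
    ∑ x, f x * poly univ c x
      = (Fintype.card (Ω → ZMod 2) : ℝ) * ∑ S : Finset Ω, fou f S * c S := by
  unfold poly fou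
  rw [powerset_univ]
  have h : ∀ x : Ω → ZMod 2, f x * ∑ S : Finset Ω, c S * walsh S x
      = ∑ S : Finset Ω, c S * (f x * walsh S x) := by
    intro x
    rw [mul_sum]
    exact sum_congr rfl fun S _ => by ring
  rw [sum_congr rfl fun x _ => h x, sum_comm, mul_sum]
  refine sum_congr rfl fun S _ => ?_
  rw [← mul_sum]
  have := cardX_pos (Ω := Ω)
  field_simp

variable (ℓ : Ω → (D →+ ZMod 2))

lemma sum_orbit (φ : (Ω → ZMod 2) → ℝ) :
    (Fintype.card D : ℝ) * ∑ x, φ x = ∑ x, ∑ d : D, φ (x + sh ℓ d) := by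
  rw [sum_comm]
  have h : ∀ d : D, ∑ x, φ (x + sh ℓ d) = ∑ x, φ x := fun d =>
    Fintype.sum_equiv (Equiv.addRight (sh ℓ d)) _ _ fun _ => rfl
  rw [sum_congr rfl fun d _ => h d, sum_const, card_univ, nsmul_eq_mul]

/-- the indicator function of a tile -/
def IsTile (f : (Ω → ZMod 2) → ℝ) : Prop :=
  ∃ a : (Ω → ZMod 2) → D, ∀ x d, f (x + sh ℓ d) = if d = a x then 1 else 0

lemma ker_empty : ker ℓ ∅ = univ := by
  ext d
  simp [ker]

/-- the probability that an element of `D` fixes the bits of `S` -/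
noncomputable def pr (S : Finset Ω) : ℝ := ((ker ℓ S).card : ℝ) / Fintype.card D

lemma cardD_pos : (0 : ℝ) < (Fintype.card D : ℝ) := by
  have : Nonempty D := ⟨0⟩
  exact_mod_cast Fintype.card_pos

lemma pr_pos (S : Finset Ω) : 0 < pr ℓ S := by
  unfold pr
  have h1 : (0 : ℝ) < (ker ℓ S).card := by exact_mod_cast card_ker_pos ℓ S
  exact div_pos h1 cardD_pos

lemma wt_empty (S : Finset Ω) : wt ℓ ∅ S = (pr ℓ S) ^ (-(4 / 3) : ℝ) := by
  unfold wt pr
  rw [ker_empty, empty_union, card_univ, Real.rpow_neg (by positivity),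
    ← Real.inv_rpow (by positivity), inv_div]

theorem tile_four_thirds {f : (Ω → ZMod 2) → ℝ} (hf : IsTile ℓ f) :
    ∑ S : Finset Ω, (pr ℓ S) ^ (4 / 3 : ℝ) * fou f S ^ 2
      ≤ (Fintype.card D : ℝ) ^ (-(4 / 3) : ℝ) := by
  obtain ⟨a, ha⟩ := hf
  set K : ℝ := (Fintype.card D : ℝ) with hK
  set X : ℝ := (Fintype.card (Ω → ZMod 2) : ℝ) with hX
  have hK0 : 0 < K := cardD_pos
  have hX0 : 0 < X := cardX_pos
  set Q : ℝ := ∑ S : Finset Ω, (pr ℓ S) ^ (4 / 3 : ℝ) * fou f S ^ 2 with hQ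
  have hQ0 : 0 ≤ Q := sum_nonneg fun S _ =>
    mul_nonneg (Real.rpow_nonneg (pr_pos ℓ S).le _) (sq_nonneg _)
  let c : Finset Ω → ℝ := fun S => (pr ℓ S) ^ (4 / 3 : ℝ) * fou f S
  have h1 := bonami ℓ univ ∅ c
  rw [powerset_univ] at h1
  have e1 : ∑ S : Finset Ω, wt ℓ ∅ S * c S ^ 2 = Q := by
    refine sum_congr rfl fun S _ => ?_
    rw [wt_empty]
    show (pr ℓ S) ^ (-(4 / 3) : ℝ) * ((pr ℓ S) ^ (4 / 3 : ℝ) * fou f S) ^ 2 = _
    have e : (pr ℓ S) ^ (-(4 / 3) : ℝ) * (pr ℓ S) ^ (4 / 3 : ℝ) = 1 := by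
      rw [← Real.rpow_add (pr_pos ℓ S)]
      norm_num
    calc (pr ℓ S) ^ (-(4 / 3) : ℝ) * ((pr ℓ S) ^ (4 / 3 : ℝ) * fou f S) ^ 2
        = ((pr ℓ S) ^ (-(4 / 3) : ℝ) * (pr ℓ S) ^ (4 / 3 : ℝ))
          * ((pr ℓ S) ^ (4 / 3 : ℝ) * fou f S ^ 2) := by ring
      _ = _ := by rw [e, one_mul]
  rw [e1] at h1
  -- the pairing
  have h2 : ∑ x, f x * poly univ c x = X * Q := by
    rw [pairing]
    congr 1
    exact sum_congr rfl fun S _ => by
      show fou f S * ((pr ℓ S) ^ (4 / 3 : ℝ) * fou f S) = _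
      ring
  have h3 : K * (X * Q) = ∑ x, poly univ c (x + sh ℓ (a x)) := by
    rw [← h2, sum_orbit ℓ (fun x => f x * poly univ c x)]
    refine sum_congr rfl fun x _ => ?_
    simp only [ha, ite_mul, one_mul, zero_mul, sum_ite_eq', mem_univ, if_true]
  have h4 : ∀ x : Ω → ZMod 2, poly univ c (x + sh ℓ (a x)) ^ 2
      ≤ K ^ (2 / 3 : ℝ) * nn (ker ℓ ∅) fun d => poly univ c (x + sh ℓ d) := by
    intro x
    have h5 : |poly univ c (x + sh ℓ (a x))| ^ 3 ≤ ∑ d : D, |poly univ c (x + sh ℓ d)| ^ 3 :=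
      single_le_sum (f := fun d : D => |poly univ c (x + sh ℓ d)| ^ 3)
        (fun d _ => by positivity) (mem_univ (a x))
    have h6 := Real.rpow_le_rpow (by positivity) h5 (show (0 : ℝ) ≤ 2 / 3 by norm_num)
    have e2 : (|poly univ c (x + sh ℓ (a x))| ^ 3) ^ (2 / 3 : ℝ)
        = poly univ c (x + sh ℓ (a x)) ^ 2 := by
      rw [← Real.rpow_natCast, ← Real.rpow_mul (abs_nonneg _), ← sq_abs, ← Real.rpow_natCast]
      norm_num
    rw [e2] at h6
    refine h6.trans (le_of_eq ?_)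
    unfold nn
    rw [ker_empty, card_univ, ← Real.mul_rpow hK0.le
      (mul_nonneg (by positivity) (sum_nonneg fun _ _ => by positivity)), ← mul_assoc,
      mul_inv_cancel₀ hK0.ne', one_mul]
  have h7 : (K * (X * Q)) ^ 2 ≤ X * (K ^ (2 / 3 : ℝ) * (X * Q)) := by
    rw [h3]
    have h8 := sq_sum_le_card_mul_sum_sq (s := (univ : Finset (Ω → ZMod 2)))
      (f := fun x => poly univ c (x + sh ℓ (a x)))
    rw [card_univ] at h8
    refine h8.trans (mul_le_mul_of_nonneg_left ?_ hX0.le)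
    refine (sum_le_sum fun x _ => h4 x).trans ?_
    rw [← mul_sum]
    exact mul_le_mul_of_nonneg_left h1 (by positivity)
  rcases hQ0.eq_or_lt with h0 | h0
  · rw [← h0]
    positivity
  · have h9 : K ^ 2 * Q ≤ K ^ (2 / 3 : ℝ) := by
      have e3 : (K * (X * Q)) ^ 2 = (K ^ 2 * Q) * (X ^ 2 * Q) := by ring
      have e4 : X * (K ^ (2 / 3 : ℝ) * (X * Q)) = K ^ (2 / 3 : ℝ) * (X ^ 2 * Q) := by ring
      rw [e3, e4] at h7
      exact le_of_mul_le_mul_right h7 (by positivity)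
    have e5 : K ^ (2 / 3 : ℝ) = K ^ 2 * K ^ (-(4 / 3) : ℝ) := by
      rw [← Real.rpow_natCast, ← Real.rpow_add hK0]
      norm_num
    rw [e5] at h9
    exact le_of_mul_le_mul_left h9 (by positivity)

lemma fou_sq {f : (Ω → ZMod 2) → ℝ} (hf : IsTile ℓ f) :
    ∑ S : Finset Ω, fou f S ^ 2 = (Fintype.card D : ℝ)⁻¹ := by
  obtain ⟨a, ha⟩ := hf
  have hX0 : (0 : ℝ) < (Fintype.card (Ω → ZMod 2) : ℝ) := cardX_pos
  have hK0 : (0 : ℝ) < (Fintype.card D : ℝ) := cardD_pos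
  have h1 := pairing f (fou f)
  simp only [poly_fou] at h1
  have h2 := sum_orbit ℓ (fun x => f x * f x)
  have h3 : ∀ x : Ω → ZMod 2, ∑ d : D, f (x + sh ℓ d) * f (x + sh ℓ d) = 1 := by
    intro x
    simp only [ha, ite_mul, one_mul, zero_mul]
    rw [sum_congr rfl (g := fun d => if d = a x then (1 : ℝ) else 0) fun d _ => by
      split_ifs <;> rfl]
    simp
  rw [sum_congr rfl fun x _ => h3 x, h1, sum_const, card_univ, nsmul_eq_mul, mul_one] at h2
  have h4 : (Fintype.card D : ℝ) * ∑ S : Finset Ω, fou f S * fou f S = 1 := by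
    have h5 : (Fintype.card (Ω → ZMod 2) : ℝ) * ((Fintype.card D : ℝ)
        * ∑ S : Finset Ω, fou f S * fou f S) = (Fintype.card (Ω → ZMod 2) : ℝ) * 1 := by
      rw [mul_one]
      linear_combination h2
    exact mul_left_cancel₀ hX0.ne' h5
  rw [sum_congr rfl fun S _ => sq (fou f S)]
  exact eq_inv_of_mul_eq_one_right h4

/-- the bound for the weighted Fourier coefficients of a tile -/
theorem tile_bound {f : (Ω → ZMod 2) → ℝ} (hf : IsTile ℓ f) :
    ∑ S : Finset Ω, pr ℓ S * fou f S ^ 2 ≤ (Fintype.card D : ℝ) ^ (-(5 / 4) : ℝ) := by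
  set K : ℝ := (Fintype.card D : ℝ) with hK
  have hK0 : 0 < K := cardD_pos
  have h1 := tile_four_thirds ℓ hf
  have h2 := fou_sq ℓ hf
  rw [← hK] at h1 h2
  have h3 : ∀ S : Finset Ω, pr ℓ S
      ≤ 3 / 4 * (K ^ (1 / 12 : ℝ) * (pr ℓ S) ^ (4 / 3 : ℝ)) + 1 / 4 * K ^ (-(1 / 4) : ℝ) := by
    intro S
    have h4 := Real.geom_mean_le_arith_mean2_weighted (w₁ := 3 / 4) (w₂ := 1 / 4)
      (p₁ := K ^ (1 / 12 : ℝ) * (pr ℓ S) ^ (4 / 3 : ℝ)) (p₂ := K ^ (-(1 / 4) : ℝ))
      (by norm_num) (by norm_num) (mul_nonneg (by positivity)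
        (Real.rpow_nonneg (pr_pos ℓ S).le _)) (by positivity) (by norm_num)
    refine le_trans (le_of_eq ?_) h4
    rw [Real.mul_rpow (by positivity) (Real.rpow_nonneg (pr_pos ℓ S).le _),
      ← Real.rpow_mul hK0.le, ← Real.rpow_mul (pr_pos ℓ S).le, ← Real.rpow_mul hK0.le,
      mul_right_comm, ← Real.rpow_add hK0]
    norm_num
  calc ∑ S : Finset Ω, pr ℓ S * fou f S ^ 2
      ≤ ∑ S : Finset Ω, (3 / 4 * (K ^ (1 / 12 : ℝ) * (pr ℓ S) ^ (4 / 3 : ℝ))
        + 1 / 4 * K ^ (-(1 / 4) : ℝ)) * fou f S ^ 2 :=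
        sum_le_sum fun S _ => mul_le_mul_of_nonneg_right (h3 S) (sq_nonneg _)
    _ = 3 / 4 * K ^ (1 / 12 : ℝ) * ∑ S : Finset Ω, (pr ℓ S) ^ (4 / 3 : ℝ) * fou f S ^ 2
        + 1 / 4 * K ^ (-(1 / 4) : ℝ) * ∑ S : Finset Ω, fou f S ^ 2 := by
        rw [mul_sum, mul_sum, ← sum_add_distrib]
        exact sum_congr rfl fun S _ => by ring
    _ ≤ 3 / 4 * K ^ (1 / 12 : ℝ) * K ^ (-(4 / 3) : ℝ)
        + 1 / 4 * K ^ (-(1 / 4) : ℝ) * K⁻¹ := by
        rw [h2]
        exact add_le_add (mul_le_mul_of_nonneg_left h1 (by positivity)) le_rfl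
    _ = K ^ (-(5 / 4) : ℝ) := by
        rw [mul_assoc, mul_assoc, ← Real.rpow_add hK0, ← Real.rpow_neg_one,
          ← Real.rpow_add hK0]
        norm_num
        ring

end Pool.Agent.MP_ec946a.SDP
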