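import Mathlib
import Pool.Agent.Lib.MP_ec946a_sdp.Tile

/-!
# Predicting the point of a tile on an orbit from half of the bits
-/

set_option autoImplicit false
set_option linter.unusedSectionVars false

namespace Pool.Agent.MP_ec946a.SDP

open Finset

variable {Ω D : Type} [Fintype Ω] [DecidableEq Ω] [Fintype D] [DecidableEq D] [AddCommGroup D]
  (ℓ : Ω → (D →+ ZMod 2))

/-- the bits fixed by `γ` come from `x`, the others from `u` -/
def merge (γ : D) (x u : Ω → ZMod 2) : Ω → ZMod 2 := fun i => if ℓ i γ = 0 then x i else u i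

lemma merge_merge_left (γ : D) (x u v : Ω → ZMod 2) :
    merge ℓ γ (merge ℓ γ x u) v = merge ℓ γ x v := by
  funext i
  unfold merge
  split_ifs <;> rfl

lemma merge_add (γ : D) (x u y v : Ω → ZMod 2) :
    merge ℓ γ (x + y) (u + v) = merge ℓ γ x u + merge ℓ γ y v := by
  funext i
  show (if ℓ i γ = 0 then x i + y i else u i + v i)
    = (if ℓ i γ = 0 then x i else u i) + (if ℓ i γ = 0 then y i else v i)
  split_ifs <;> rfl

lemma merge_self (γ : D) (x : Ω → ZMod 2) : merge ℓ γ x x = x := by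
  funext i
  unfold merge
  split_ifs <;> rfl

lemma sum_merge (γ : D) (φ : (Ω → ZMod 2) → ℝ) :
    ∑ x, ∑ u, φ (merge ℓ γ x u) = (Fintype.card (Ω → ZMod 2) : ℝ) * ∑ x, φ x := by
  have hinv : Function.Involutive
      (fun p : (Ω → ZMod 2) × (Ω → ZMod 2) => (merge ℓ γ p.1 p.2, merge ℓ γ p.2 p.1)) := by
    rintro ⟨x, u⟩
    apply Prod.ext
    · funext i
      show merge ℓ γ (merge ℓ γ x u) (merge ℓ γ u x) i = x i
      unfold merge
      split_ifs <;> rfl
    · funext i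
      show merge ℓ γ (merge ℓ γ u x) (merge ℓ γ x u) i = u i
      unfold merge
      split_ifs <;> rfl
  rw [← Fintype.sum_prod_type' (fun x u => φ (merge ℓ γ x u))]
  have h := Fintype.sum_equiv (hinv.toPerm _)
    (fun p : (Ω → ZMod 2) × (Ω → ZMod 2) => φ (merge ℓ γ p.1 p.2)) (fun p => φ p.1)
    (fun p => rfl)
  rw [h, Fintype.sum_prod_type]
  simp only [sum_const, card_univ, nsmul_eq_mul]
  rw [mul_sum]

/-- the conditional expectation given the bits fixed by `γ` -/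
noncomputable def cexp (γ : D) (f : (Ω → ZMod 2) → ℝ) (x : Ω → ZMod 2) : ℝ :=
  (Fintype.card (Ω → ZMod 2) : ℝ)⁻¹ * ∑ u, f (merge ℓ γ x u)

lemma cexp_merge (γ : D) (f : (Ω → ZMod 2) → ℝ) (x u : Ω → ZMod 2) :
    cexp ℓ γ f (merge ℓ γ x u) = cexp ℓ γ f x := by
  unfold cexp
  simp only [merge_merge_left]

lemma sum_cexp_mul (γ : D) (f g : (Ω → ZMod 2) → ℝ) (hg : ∀ x u, g (merge ℓ γ x u) = g x) :
    ∑ x, f x * g x = ∑ x, cexp ℓ γ f x * g x := by
  have hX0 : (0 : ℝ) < (Fintype.card (Ω → ZMod 2) : ℝ) := cardX_pos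
  have h1 := sum_merge ℓ γ (fun x => f x * g x)
  simp only [hg] at h1
  have h2 : ∑ x, cexp ℓ γ f x * g x
      = (Fintype.card (Ω → ZMod 2) : ℝ)⁻¹ * ∑ x, ∑ u, f (merge ℓ γ x u) * g x := by
    rw [mul_sum]
    refine sum_congr rfl fun x _ => ?_
    unfold cexp
    rw [mul_assoc, sum_mul]
  rw [h2, h1, ← mul_assoc, inv_mul_cancel₀ hX0.ne', one_mul]

lemma cexp_poly (γ : D) (f : (Ω → ZMod 2) → ℝ) (x : Ω → ZMod 2) :
    cexp ℓ γ f x = poly univ (fun S => if γ ∈ ker ℓ S then fou f S else 0) x := by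
  have hX0 : (0 : ℝ) < (Fintype.card (Ω → ZMod 2) : ℝ) := cardX_pos
  have h1 : ∀ S : Finset Ω, ∑ u, walsh S (merge ℓ γ x u)
      = if γ ∈ ker ℓ S then (Fintype.card (Ω → ZMod 2) : ℝ) * walsh S x else 0 := by
    intro S
    split_ifs with h
    · rw [mem_ker] at h
      have h2 : ∀ u, walsh S (merge ℓ γ x u) = walsh S x := by
        intro u
        unfold walsh
        refine prod_congr rfl fun i hi => ?_
        unfold merge
        rw [if_pos (h i hi)]
      simp only [h2, sum_const, card_univ, nsmul_eq_mul]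
    · rw [mem_ker] at h
      push Not at h
      obtain ⟨j, hj, hjγ⟩ := h
      have h2 : ∀ u, walsh S (merge ℓ γ x (u + Pi.single j 1)) = - walsh S (merge ℓ γ x u) := by
        intro u
        have e : merge ℓ γ x (u + Pi.single j 1) = merge ℓ γ x u + Pi.single j 1 := by
          funext i
          unfold merge
          by_cases hij : i = j
          · subst hij
            rw [if_neg hjγ, Pi.add_apply, Pi.add_apply, if_neg hjγ]
          · rw [Pi.add_apply, Pi.add_apply, Pi.single_eq_of_ne hij, add_zero, add_zero]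
        rw [e, walsh_add]
        have e2 : walsh S (Pi.single j 1 : Ω → ZMod 2) = -1 := by
          unfold walsh
          rw [prod_eq_single_of_mem j hj, Pi.single_eq_same, sgn_one]
          intro i _ hij
          rw [Pi.single_eq_of_ne hij, sgn_zero]
        rw [e2]
        ring
      have h3 := sum_flip j (fun u => walsh S (merge ℓ γ x u))
      simp only [h2, add_neg_cancel, sum_const_zero, zero_div] at h3
      exact h3
  unfold cexp
  have h2 : ∀ u, f (merge ℓ γ x u) = ∑ S : Finset Ω, fou f S * walsh S (merge ℓ γ x u) := by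
    intro u
    rw [← poly_fou f (merge ℓ γ x u)]
    unfold poly
    rw [powerset_univ]
  rw [sum_congr rfl fun u _ => h2 u, sum_comm, mul_sum]
  unfold poly
  rw [powerset_univ]
  refine sum_congr rfl fun S _ => ?_
  rw [← mul_sum, h1]
  by_cases h : γ ∈ ker ℓ S
  · simp only [if_pos h]
    field_simp
  · simp only [if_neg h]
    ring

lemma cexp_sq (γ : D) (f : (Ω → ZMod 2) → ℝ) :
    ∑ x, cexp ℓ γ f x ^ 2 = (Fintype.card (Ω → ZMod 2) : ℝ)
      * ∑ S : Finset Ω, if γ ∈ ker ℓ S then fou f S ^ 2 else 0 := by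
  have h1 := sum_cexp_mul ℓ γ f (cexp ℓ γ f) (cexp_merge ℓ γ f)
  rw [sum_congr rfl fun x _ => sq (cexp ℓ γ f x), ← h1]
  rw [sum_congr rfl fun x _ => by rw [cexp_poly]]
  rw [pairing]
  congr 1
  refine sum_congr rfl fun S _ => ?_
  split_ifs
  · ring
  · ring

lemma cexp_zero (f : (Ω → ZMod 2) → ℝ) (x : Ω → ZMod 2) : cexp ℓ 0 f x = f x := by
  have hX0 : (0 : ℝ) < (Fintype.card (Ω → ZMod 2) : ℝ) := cardX_pos
  unfold cexp
  have h : ∀ u, merge ℓ 0 x u = x := by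
    intro u
    funext i
    unfold merge
    rw [if_pos (map_zero _)]
  simp only [h, sum_const, card_univ, nsmul_eq_mul]
  rw [← mul_assoc, inv_mul_cancel₀ hX0.ne', one_mul]

lemma sum_cexp_sq {f : (Ω → ZMod 2) → ℝ} (hf : IsTile ℓ f) :
    ∑ γ ∈ univ.erase (0 : D), ∑ x, cexp ℓ γ f x ^ 2
      ≤ (Fintype.card (Ω → ZMod 2) : ℝ)
        * (((Fintype.card D : ℝ) - 1) * (Fintype.card D : ℝ) ^ (-(5 / 4) : ℝ)) := by
  set K : ℝ := (Fintype.card D : ℝ) with hK
  set X : ℝ := (Fintype.card (Ω → ZMod 2) : ℝ) with hX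
  have hK0 : 0 < K := cardD_pos
  have hK1 : 1 ≤ K := by
    have : Nonempty D := ⟨0⟩
    rw [hK]
    exact_mod_cast Nat.succ_le_of_lt Fintype.card_pos
  have hX0 : 0 < X := cardX_pos
  have h1 : ∑ γ : D, ∑ x, cexp ℓ γ f x ^ 2 = X * (K * ∑ S : Finset Ω, pr ℓ S * fou f S ^ 2) := by
    rw [sum_congr rfl (g := fun γ => X * ∑ S : Finset Ω, if γ ∈ ker ℓ S then fou f S ^ 2 else 0)
      fun γ _ => cexp_sq ℓ γ f, ← mul_sum, sum_comm]
    congr 1
    rw [mul_sum]
    refine sum_congr rfl fun S _ => ?_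
    rw [← sum_filter, sum_const, nsmul_eq_mul, filter_mem_eq_inter, univ_inter]
    unfold pr
    rw [← hK]
    field_simp
  have h2 : ∑ x, cexp ℓ 0 f x ^ 2 = X * K⁻¹ := by
    rw [cexp_sq, ← hX, hK, ← fou_sq ℓ hf]
    congr 1
    refine sum_congr rfl fun S _ => ?_
    rw [if_pos (zero_mem_ker ℓ S)]
  have h4 := tile_bound ℓ hf
  rw [← hK] at h4
  have h5 : ∑ γ ∈ univ.erase (0 : D), ∑ x, cexp ℓ γ f x ^ 2
      = ∑ γ : D, ∑ x, cexp ℓ γ f x ^ 2 - ∑ x, cexp ℓ 0 f x ^ 2 := by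
    rw [eq_sub_iff_add_eq, sum_erase_add _ _ (mem_univ (0 : D))]
  rw [h5, h1, h2, ← mul_sub]
  refine mul_le_mul_of_nonneg_left ?_ hX0.le
  have h6 : K * ∑ S : Finset Ω, pr ℓ S * fou f S ^ 2 ≤ K * K ^ (-(5 / 4) : ℝ) :=
    mul_le_mul_of_nonneg_left h4 hK0.le
  have h7 : K ^ (-(5 / 4) : ℝ) ≤ K⁻¹ := by
    rw [← Real.rpow_neg_one]
    exact Real.rpow_le_rpow_of_exponent_le hK1 (by norm_num)
  have h8 : (K - 1) * K ^ (-(5 / 4) : ℝ) = K * K ^ (-(5 / 4) : ℝ) - K ^ (-(5 / 4) : ℝ) := by ring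
  rw [h8]
  linarith

/-- the number of strings for which the guess `b` from the bits fixed by `γ` is right up to
adding `γ` -/
theorem guess_sq {f : (Ω → ZMod 2) → ℝ} {a : (Ω → ZMod 2) → D}
    (ha : ∀ x d, f (x + sh ℓ d) = if d = a x then 1 else 0) {γ : D} (hγ : γ ≠ 0)
    (b : (Ω → ZMod 2) → D) (hb : ∀ x u, b (merge ℓ γ x u) = b x) :
    ((univ.filter fun x => a x = b x ∨ a x = b x + γ).card : ℝ) ^ 2
      ≤ 2 * (Fintype.card (Ω → ZMod 2) : ℝ) * (Fintype.card D : ℝ) * ∑ x, cexp ℓ γ f x ^ 2 := by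
  set X : ℝ := (Fintype.card (Ω → ZMod 2) : ℝ) with hX
  set K : ℝ := (Fintype.card D : ℝ) with hK
  have hX0 : 0 < X := cardX_pos
  have hK0 : 0 < K := cardD_pos
  -- the conditional expectation at shifted strings
  have hshift : ∀ x d, cexp ℓ γ f (x + sh ℓ d) = X⁻¹ * ∑ u, f (merge ℓ γ x u + sh ℓ d) := by
    intro x d
    unfold cexp
    rw [← hX]
    congr 1
    refine Fintype.sum_equiv (Equiv.subRight (sh ℓ d)) _ _ fun u => ?_
    show f (merge ℓ γ (x + sh ℓ d) u) = f (merge ℓ γ x (u - sh ℓ d) + sh ℓ d)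
    have e : merge ℓ γ (x + sh ℓ d) u = merge ℓ γ x (u - sh ℓ d) + sh ℓ d := by
      conv_rhs => rw [← merge_self ℓ γ (sh ℓ d)]
      rw [← merge_add]
      rw [merge_self, sub_add_cancel]
    rw [e]
  have hgam : ∀ x d, cexp ℓ γ f (x + sh ℓ (d + γ)) = cexp ℓ γ f (x + sh ℓ d) := by
    intro x d
    unfold cexp
    congr 1
    refine sum_congr rfl fun u _ => ?_
    congr 1
    funext i
    unfold merge
    split_ifs with h
    · rw [Pi.add_apply, Pi.add_apply]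
      show x i + ℓ i (d + γ) = x i + ℓ i d
      rw [map_add, h, add_zero]
    · rfl
  have h1 : ((univ.filter fun x => a x = b x ∨ a x = b x + γ).card : ℝ)
      = ∑ x, (f (x + sh ℓ (b x)) + f (x + sh ℓ (b x + γ))) := by
    rw [card_filter]
    push_cast
    refine sum_congr rfl fun x _ => ?_
    rw [ha, ha]
    by_cases h2 : b x = a x
    · rw [if_pos (Or.inl h2.symm), if_pos h2, if_neg, add_zero]
      intro h3
      rw [h2, add_eq_left] at h3
      exact hγ h3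
    · by_cases h3 : b x + γ = a x
      · rw [if_pos (Or.inr h3.symm), if_neg h2, if_pos h3, zero_add]
      · rw [if_neg, if_neg h2, if_neg h3, add_zero]
        rintro (h4 | h4)
        · exact h2 h4.symm
        · exact h3 h4.symm
  have h2 : ((univ.filter fun x => a x = b x ∨ a x = b x + γ).card : ℝ)
      = 2 * ∑ x, cexp ℓ γ f (x + sh ℓ (b x)) := by
    have h3 := sum_merge ℓ γ (fun x => f (x + sh ℓ (b x)) + f (x + sh ℓ (b x + γ)))
    simp only [hb] at h3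
    have h4 : ∀ x, ∑ u, (f (merge ℓ γ x u + sh ℓ (b x)) + f (merge ℓ γ x u + sh ℓ (b x + γ)))
        = X * (2 * cexp ℓ γ f (x + sh ℓ (b x))) := by
      intro x
      rw [sum_add_distrib]
      have h5 := hshift x (b x)
      have h6 := hshift x (b x + γ)
      rw [hgam] at h6
      have h7 : X * cexp ℓ γ f (x + sh ℓ (b x)) = ∑ u, f (merge ℓ γ x u + sh ℓ (b x)) := by
        rw [h5, ← mul_assoc, mul_inv_cancel₀ hX0.ne', one_mul]
      have h8 : X * cexp ℓ γ f (x + sh ℓ (b x)) = ∑ u, f (merge ℓ γ x u + sh ℓ (b x + γ)) := by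
        rw [h6, ← mul_assoc, mul_inv_cancel₀ hX0.ne', one_mul]
      rw [← h7, ← h8]
      ring
    rw [sum_congr rfl fun x _ => h4 x, ← mul_sum, ← h1] at h3
    have h9 := mul_left_cancel₀ hX0.ne' h3
    rw [← h9, mul_sum]
  rw [h2, mul_pow]
  have h3 : (∑ x, cexp ℓ γ f (x + sh ℓ (b x))) ^ 2
      ≤ X * ∑ x, cexp ℓ γ f (x + sh ℓ (b x)) ^ 2 := by
    have h4 := sq_sum_le_card_mul_sum_sq (s := (univ : Finset (Ω → ZMod 2)))
      (f := fun x => cexp ℓ γ f (x + sh ℓ (b x)))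
    rw [card_univ] at h4
    exact h4
  have h5 : ∀ x, 2 * cexp ℓ γ f (x + sh ℓ (b x)) ^ 2 ≤ ∑ d : D, cexp ℓ γ f (x + sh ℓ d) ^ 2 := by
    intro x
    have hne : b x ≠ b x + γ := fun h => hγ (left_eq_add.mp h)
    have h6 := sum_le_univ_sum_of_nonneg (s := ({b x, b x + γ} : Finset D))
      (f := fun d : D => cexp ℓ γ f (x + sh ℓ d) ^ 2) (fun d => sq_nonneg _)
    rw [sum_pair hne, hgam] at h6
    linarith
  have h6 : 2 * ∑ x, cexp ℓ γ f (x + sh ℓ (b x)) ^ 2 ≤ K * ∑ x, cexp ℓ γ f x ^ 2 := by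
    rw [sum_orbit ℓ (fun x => cexp ℓ γ f x ^ 2), mul_sum]
    exact sum_le_sum fun x _ => h5 x
  have h7 : X * (2 * ∑ x, cexp ℓ γ f (x + sh ℓ (b x)) ^ 2)
      ≤ X * (K * ∑ x, cexp ℓ γ f x ^ 2) := mul_le_mul_of_nonneg_left h6 hX0.le
  nlinarith [h3, h7]

/-- the success probability of a guess -/
theorem guess_bound {f : (Ω → ZMod 2) → ℝ} {a : (Ω → ZMod 2) → D}
    (ha : ∀ x d, f (x + sh ℓ d) = if d = a x then 1 else 0)
    (b : D → (Ω → ZMod 2) → D) (hb : ∀ γ x u, b γ (merge ℓ γ x u) = b γ x) :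
    ∑ γ ∈ univ.erase (0 : D), ((univ.filter fun x => a x = b γ x ∨ a x = b γ x + γ).card : ℝ)
      ≤ √2 * (Fintype.card D : ℝ) ^ (-(1 / 8) : ℝ)
        * ((Fintype.card (Ω → ZMod 2) : ℝ) * ((Fintype.card D : ℝ) - 1)) := by
  set X : ℝ := (Fintype.card (Ω → ZMod 2) : ℝ) with hX
  set K : ℝ := (Fintype.card D : ℝ) with hK
  have hX0 : 0 < X := cardX_pos
  have hK0 : 0 < K := cardD_pos
  have hne : Nonempty D := ⟨0⟩
  have hK1 : 1 ≤ K := by
    rw [hK]
    exact_mod_cast Nat.succ_le_of_lt Fintype.card_pos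
  have hcard : (((univ.erase (0 : D)).card : ℕ) : ℝ) = K - 1 := by
    rw [card_erase_of_mem (mem_univ _), card_univ, Nat.cast_sub Fintype.card_pos, Nat.cast_one]
  set P : D → ℝ := fun γ => ((univ.filter fun x => a x = b γ x ∨ a x = b γ x + γ).card : ℝ)
  have h1 : (∑ γ ∈ univ.erase (0 : D), P γ) ^ 2
      ≤ (K - 1) * ∑ γ ∈ univ.erase (0 : D), P γ ^ 2 := by
    rw [← hcard]
    exact sq_sum_le_card_mul_sum_sq
  have h2 : ∑ γ ∈ univ.erase (0 : D), P γ ^ 2
      ≤ 2 * X * K * ∑ γ ∈ univ.erase (0 : D), ∑ x, cexp ℓ γ f x ^ 2 := by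
    rw [mul_sum]
    exact sum_le_sum fun γ hγ => guess_sq ℓ ha (mem_erase.mp hγ).1 (b γ) (hb γ)
  have h3 := sum_cexp_sq ℓ (f := f) ⟨a, ha⟩
  rw [← hK, ← hX] at h3
  have h4 : (∑ γ ∈ univ.erase (0 : D), P γ) ^ 2
      ≤ (K - 1) * (2 * X * K * (X * ((K - 1) * K ^ (-(5 / 4) : ℝ)))) := by
    refine h1.trans (mul_le_mul_of_nonneg_left (h2.trans ?_) (by linarith))
    exact mul_le_mul_of_nonneg_left h3 (by positivity)
  have e : (√2 * K ^ (-(1 / 8) : ℝ) * (X * (K - 1))) ^ 2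
      = (K - 1) * (2 * X * K * (X * ((K - 1) * K ^ (-(5 / 4) : ℝ)))) := by
    have e1 : (K ^ (-(1 / 8) : ℝ)) ^ 2 = K * K ^ (-(5 / 4) : ℝ) := by
      rw [← Real.rpow_natCast, ← Real.rpow_mul hK0.le]
      conv_rhs => rw [← Real.rpow_one K]
      rw [← Real.rpow_mul hK0.le, ← Real.rpow_add hK0]
      norm_num
    rw [mul_pow, mul_pow, Real.sq_sqrt (by norm_num), e1]
    ring
  rw [← e] at h4
  exact (pow_le_pow_iff_left₀ (sum_nonneg fun γ _ => Nat.cast_nonneg _)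
    (mul_nonneg (by positivity) (mul_nonneg hX0.le (by linarith))) two_ne_zero).mp h4

end Pool.Agent.MP_ec946a.SDP
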