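import Mathlib
import Pool.Agent.Lib.MP_ec946a_sdp.Noise
import Pool.Agent.Lib.MP_ec946a_sdp.Relax

/-!
# The hyperplane game

`W = F_2^k`.  The vertices of `U` are the strings `x : W → F_2` up to adding linear forms, the
vertices of `V` are the pairs of a hyperplane `γ^⊥` and a string on the hyperplane up to adding
linear forms; the labels of a vertex are the members of its class.  Restriction to the hyperplane
is exactly two to one.
-/

set_option autoImplicit false
set_option linter.unusedSectionVars false

namespace Pool.Agent.MP_ec946a.SDP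

open Finset

/-- the space of labels -/
abbrev W (k : ℕ) : Type := Fin k → ZMod 2

/-- the pairing of two vectors -/
def lin (k : ℕ) (w : W k) : W k →+ ZMod 2 where
  toFun d := ∑ i, w i * d i
  map_zero' := by simp
  map_add' d e := by
    rw [← sum_add_distrib]
    exact sum_congr rfl fun i _ => mul_add _ _ _

lemma lin_add_left {k : ℕ} (w w' d : W k) : lin k (w + w') d = lin k w d + lin k w' d := by
  show ∑ i, (w i + w' i) * d i = ∑ i, w i * d i + ∑ i, w' i * d i
  rw [← sum_add_distrib]
  exact sum_congr rfl fun i _ => add_mul _ _ _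

lemma lin_zero_left {k : ℕ} (d : W k) : lin k 0 d = 0 := by
  show ∑ i, (0 : W k) i * d i = 0
  simp

lemma lin_comm {k : ℕ} (w d : W k) : lin k w d = lin k d w := by
  show ∑ i, w i * d i = ∑ i, d i * w i
  exact sum_congr rfl fun i _ => mul_comm _ _

lemma lin_single {k : ℕ} (i : Fin k) (d : W k) : lin k (Pi.single i 1) d = d i := by
  show ∑ j, (Pi.single i 1 : W k) j * d j = d i
  rw [sum_eq_single_of_mem i (mem_univ _)]
  · rw [Pi.single_eq_same, one_mul]
  · intro j _ hj
    rw [Pi.single_eq_of_ne hj, zero_mul]

lemma add_self_W {k : ℕ} (d : W k) : d + d = 0 := by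
  funext i
  exact CharTwo.add_self_eq_zero (d i)

lemma sub_eq_add_W {k : ℕ} (d e : W k) : d - e = d + e := by
  rw [sub_eq_add_neg, neg_eq_of_add_eq_zero_left (add_self_W e)]

lemma sh_inj {k : ℕ} {d e : W k} (h : sh (lin k) d = sh (lin k) e) : d = e := by
  funext i
  have h1 := congrFun h (Pi.single i 1)
  show d i = e i
  rw [← lin_single i d, ← lin_single i e]
  exact h1

/-- the strings -/
abbrev XX (k : ℕ) : Type := W k → ZMod 2

/-- the orbits on the strings -/
def relU (k : ℕ) : Setoid (XX k) where
  r x y := ∃ d, y = x + sh (lin k) d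
  iseqv :=
    { refl := fun x => ⟨0, by
        funext w
        show x w = x w + lin k w 0
        rw [map_zero, add_zero]⟩
      symm := by
        rintro x y ⟨d, rfl⟩
        refine ⟨d, ?_⟩
        funext w
        show x w = x w + lin k w d + lin k w d
        rw [add_assoc, CharTwo.add_self_eq_zero, add_zero]
      trans := by
        rintro x y z ⟨d, rfl⟩ ⟨e, rfl⟩
        exact ⟨d + e, by rw [sh_add, add_assoc]⟩ }

/-- the orbits on the strings restricted to the hyperplane -/
def relV (k : ℕ) (γ : W k) : Setoid (XX k) where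
  r x y := ∃ d, ∀ w, lin k w γ = 0 → y w = x w + lin k w d
  iseqv :=
    { refl := fun x => ⟨0, fun w _ => by rw [map_zero, add_zero]⟩
      symm := by
        rintro x y ⟨d, hd⟩
        refine ⟨d, fun w hw => ?_⟩
        rw [hd w hw, add_assoc, CharTwo.add_self_eq_zero, add_zero]
      trans := by
        rintro x y z ⟨d, hd⟩ ⟨e, he⟩
        refine ⟨d + e, fun w hw => ?_⟩
        rw [he w hw, hd w hw, map_add, add_assoc] }

section

variable (k : ℕ)

/-- the labels -/
noncomputable def lab : W k ≃ Fin (2 ^ k) :=
  Fintype.equivFinOfCardEq (by rw [Fintype.card_fun, ZMod.card, Fintype.card_fin])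

lemma card_W : Fintype.card (W k) = 2 ^ k := by
  rw [Fintype.card_fun, ZMod.card, Fintype.card_fin]

/-- the nonzero vectors -/
abbrev NZ : Type := {γ : W k // γ ≠ 0}

variable {k}

lemma exists_one (γ : NZ k) : ∃ i, γ.1 i = 1 := by
  obtain ⟨i, hi⟩ := Function.ne_iff.mp γ.2
  exact ⟨i, (zmod2 _).resolve_left hi⟩

/-- a coordinate in which `γ` is one -/
noncomputable def i0 (γ : NZ k) : Fin k := (exists_one γ).choose

lemma i0_spec (γ : NZ k) : γ.1 (i0 γ) = 1 := (exists_one γ).choose_spec

/-- the member of `{c, c + γ}` with vanishing coordinate `i0` -/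
noncomputable def can (γ : NZ k) (c : W k) : W k := if c (i0 γ) = 0 then c else c + γ.1

lemma can_i0 (γ : NZ k) (c : W k) : can γ c (i0 γ) = 0 := by
  unfold can
  split_ifs with h
  · exact h
  · rw [Pi.add_apply, i0_spec, (zmod2 _).resolve_left h]
    rfl

lemma can_eq_iff (γ : NZ k) {c b : W k} (hb : b (i0 γ) = 0) :
    can γ c = b ↔ c = b ∨ c = b + γ.1 := by
  unfold can
  split_ifs with h
  · constructor
    · exact Or.inl
    · rintro (h1 | h1)
      · exact h1
      · rw [h1, Pi.add_apply, hb, i0_spec, zero_add] at h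
        exact absurd h one_ne_zero
  · constructor
    · intro h1
      right
      rw [← h1, add_assoc, add_self_W, add_zero]
    · rintro (h1 | h1)
      · rw [h1] at h
        exact absurd hb h
      · rw [h1, add_assoc, add_self_W, add_zero]

/-- the representative of the orbit of `x` -/
noncomputable def ru (x : XX k) : XX k := (Quotient.mk (relU k) x).out

lemma exists_su (x : XX k) : ∃ d, ru x = x + sh (lin k) d :=
  (relU k).symm (Quotient.exact (Quotient.out_eq (Quotient.mk (relU k) x)))

/-- the shift to the representative -/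
noncomputable def su (x : XX k) : W k := (exists_su x).choose

lemma su_spec (x : XX k) : ru x = x + sh (lin k) (su x) := (exists_su x).choose_spec

/-- the representative of the class of `x` on the hyperplane -/
noncomputable def rv (γ : W k) (x : XX k) : XX k := (Quotient.mk (relV k γ) x).out

lemma mk_merge (γ : W k) (x u : XX k) :
    Quotient.mk (relV k γ) (merge (lin k) γ x u) = Quotient.mk (relV k γ) x := by
  apply Quotient.sound
  refine ⟨0, fun w hw => ?_⟩
  rw [map_zero, add_zero]
  unfold merge
  rw [if_pos hw]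

lemma exists_sv (γ : W k) (x : XX k) :
    ∃ d, ∀ w, lin k w γ = 0 →
      rv γ (merge (lin k) γ x 0) w = merge (lin k) γ x 0 w + lin k w d :=
  (relV k γ).symm (Quotient.exact (Quotient.out_eq
    (Quotient.mk (relV k γ) (merge (lin k) γ x 0))))

/-- the shift to the representative on the hyperplane -/
noncomputable def sv (γ : W k) (x : XX k) : W k := (exists_sv γ x).choose

lemma sv_merge (γ : W k) (x u : XX k) : sv γ (merge (lin k) γ x u) = sv γ x := by
  unfold sv
  congr 1
  simp only [merge_merge_left]

lemma sv_spec (γ : W k) (x : XX k) {w : W k} (hw : lin k w γ = 0) :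
    rv γ x w = x w + lin k w (sv γ x) := by
  have h : rv γ (merge (lin k) γ x 0) w = merge (lin k) γ x 0 w + lin k w (sv γ x) :=
    (exists_sv γ x).choose_spec w hw
  have h1 : rv γ (merge (lin k) γ x 0) = rv γ x := by
    unfold rv
    rw [mk_merge]
  rw [h1] at h
  have h2 : merge (lin k) γ x 0 w = x w := by
    unfold merge
    rw [if_pos hw]
  rw [h2] at h
  exact h

/-- the label of the restriction -/
noncomputable def prj (x : XX k) (γ : NZ k) (a : Fin (2 ^ k)) : Fin (2 ^ k) :=
  lab k (can γ ((lab k).symm a + (su x + sv γ.1 x)))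

lemma prj_eq_iff (x : XX k) (γ : NZ k) (a b : Fin (2 ^ k)) :
    prj x γ a = b ↔ ((lab k).symm b) (i0 γ) = 0 ∧
      (a = lab k ((lab k).symm b + (su x + sv γ.1 x))
        ∨ a = lab k ((lab k).symm b + γ.1 + (su x + sv γ.1 x))) := by
  unfold prj
  rw [← Equiv.eq_symm_apply]
  set r := su x + sv γ.1 x with hr
  have hadd : ∀ c d : W k, c + r = d ↔ c = d + r := by
    intro c d
    constructor
    · rintro rfl
      rw [add_assoc, add_self_W, add_zero]
    · rintro rfl
      rw [add_assoc, add_self_W, add_zero]
  constructor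
  · intro h
    have hb : ((lab k).symm b) (i0 γ) = 0 := by
      rw [← h]
      exact can_i0 _ _
    refine ⟨hb, ?_⟩
    rw [can_eq_iff γ hb, hadd, hadd] at h
    rcases h with h | h
    · left
      rw [← h, Equiv.apply_symm_apply]
    · right
      rw [← h, Equiv.apply_symm_apply]
  · rintro ⟨hb, h⟩
    rw [can_eq_iff γ hb, hadd, hadd]
    rcases h with h | h
    · left
      rw [h, Equiv.symm_apply_apply]
    · right
      rw [h, Equiv.symm_apply_apply]

lemma lab_ne (x : XX k) (γ : NZ k) (b : Fin (2 ^ k)) :
    lab k ((lab k).symm b + (su x + sv γ.1 x))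
      ≠ lab k ((lab k).symm b + γ.1 + (su x + sv γ.1 x)) := by
  intro h
  have h1 := add_right_cancel ((lab k).injective h)
  exact γ.2 (left_eq_add.mp h1)

lemma fibre_eq (x : XX k) (γ : NZ k) (b : Fin (2 ^ k)) :
    univ.filter (fun a => prj x γ a = b) = if ((lab k).symm b) (i0 γ) = 0 then
      {lab k ((lab k).symm b + (su x + sv γ.1 x)),
        lab k ((lab k).symm b + γ.1 + (su x + sv γ.1 x))} else ∅ := by
  ext a
  rw [mem_filter, prj_eq_iff]
  split_ifs with h
  · rw [mem_insert, mem_singleton]
    simp [h]
  · simp [h]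

lemma card_fibre (x : XX k) (γ : NZ k) (b : Fin (2 ^ k)) :
    Nat.card {a // prj x γ a = b} = 0 ∨ Nat.card {a // prj x γ a = b} = 2 := by
  rw [Nat.card_eq_fintype_card, Fintype.card_subtype, fibre_eq]
  split_ifs
  · right
    exact card_pair (lab_ne x γ b)
  · left
    rfl

end

/-- the hyperplane game -/
noncomputable def hgame (k : ℕ) (hk : 1 ≤ k) : Game (2 ^ k) where
  U := Quotient (relU k)
  V := Σ γ : NZ k, Quotient (relV k γ.1)
  E := XX k × NZ k
  finU := Fintype.ofFinite _
  finV := Fintype.ofFinite _
  finE := inferInstance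
  neE := ⟨(0, ⟨Pi.single ⟨0, hk⟩ 1, by
    intro h
    have h1 := congrFun h ⟨0, hk⟩
    rw [Pi.single_eq_same] at h1
    exact one_ne_zero h1⟩)⟩
  src := fun e => Quotient.mk _ e.1
  tgt := fun e => ⟨e.2, Quotient.mk _ e.1⟩
  proj := fun e => prj e.1 e.2
  two_to_one := by
    intro e b
    rcases card_fibre e.1 e.2 b with h | h
    · rw [h]
      norm_num
    · rw [h]

end Pool.Agent.MP_ec946a.SDP
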