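import Mathlib
import Pool.Agent.Lib.MP_ec946a_sdp.HGame

/-!
# The hyperplane game: perfect semidefinite solution and value
-/

set_option autoImplicit false
set_option linter.unusedSectionVars false

namespace Pool.Agent.MP_ec946a.SDP

open Finset

lemma inn (x y : ℝ) : inner ℝ x y = x * y := by
  rw [RCLike.inner_apply, conj_trivial, mul_comm]

section

variable {k : ℕ}

/-- the vector of the label `a` at a vertex with representative `z` -/
noncomputable def vecU (z : XX k) (a : Fin (2 ^ k)) : EuclideanSpace ℝ (Fin (2 ^ k)) :=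
  WithLp.toLp 2 fun i => (2 ^ k : ℝ)⁻¹
    * sgn (z 0 + z ((lab k).symm i) + lin k ((lab k).symm i) ((lab k).symm a))

/-- the vector of the label `b` at a vertex of `V` with representative `z` -/
noncomputable def vecV (γ : NZ k) (z : XX k) (b : Fin (2 ^ k)) :
    EuclideanSpace ℝ (Fin (2 ^ k)) :=
  WithLp.toLp 2 fun i => if ((lab k).symm b) (i0 γ) = 0 ∧ lin k ((lab k).symm i) γ.1 = 0 then
    (2 ^ k : ℝ)⁻¹ * (2 * sgn (z 0 + z ((lab k).symm i) + lin k ((lab k).symm i) ((lab k).symm b)))
    else 0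

/-- the common sum of the vectors of a vertex -/
noncomputable def vec0 (k : ℕ) : EuclideanSpace ℝ (Fin (2 ^ k)) :=
  WithLp.toLp 2 fun i => if (lab k).symm i = 0 then 1 else 0

lemma sum_sgn_lin (w : W k) : ∑ d : W k, sgn (lin k w d) = if w = 0 then (2 ^ k : ℝ) else 0 := by
  split_ifs with h
  · subst h
    simp only [lin_zero_left, sgn_zero, sum_const, card_univ, card_W, nsmul_eq_mul, mul_one]
    push_cast
    rfl
  · obtain ⟨i, hi⟩ := Function.ne_iff.mp h
    have hi1 : w i = 1 := (zmod2 _).resolve_left hi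
    have h1 : ∑ d : W k, sgn (lin k w (d + Pi.single i 1)) = ∑ d : W k, sgn (lin k w d) :=
      Fintype.sum_equiv (Equiv.addRight (Pi.single i 1 : W k)) _ _ fun _ => rfl
    have h2 : ∀ d : W k, sgn (lin k w (d + Pi.single i 1)) = - sgn (lin k w d) := by
      intro d
      rw [map_add, sgn_add, lin_comm w (Pi.single i 1), lin_single, hi1, sgn_one]
      ring
    rw [sum_congr rfl fun d _ => h2 d, sum_neg_distrib] at h1
    linarith

lemma sum_vecU (z : XX k) : ∑ a, vecU z a = vec0 k := by
  ext i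
  have h1 : (∑ a, vecU z a) i = ∑ a, vecU z a i := by
    simp only [WithLp.ofLp_sum, Finset.sum_apply]
  rw [h1]
  show ∑ a : Fin (2 ^ k), (2 ^ k : ℝ)⁻¹
    * sgn (z 0 + z ((lab k).symm i) + lin k ((lab k).symm i) ((lab k).symm a))
    = if (lab k).symm i = 0 then 1 else 0
  rw [← mul_sum]
  have h2 : ∑ a : Fin (2 ^ k),
      sgn (z 0 + z ((lab k).symm i) + lin k ((lab k).symm i) ((lab k).symm a))
      = sgn (z 0 + z ((lab k).symm i)) * ∑ d : W k, sgn (lin k ((lab k).symm i) d) := by
    rw [mul_sum]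
    refine Fintype.sum_equiv (lab k).symm _ _ fun a => ?_
    exact sgn_add _ _
  rw [h2, sum_sgn_lin]
  split_ifs with h
  · rw [h]
    have h3 : z 0 + z 0 = 0 := CharTwo.add_self_eq_zero _
    rw [h3, sgn_zero, one_mul, inv_mul_cancel₀ (by positivity)]
  · simp

lemma norm_vec0 : ‖vec0 k‖ = 1 := by
  rw [EuclideanSpace.norm_eq]
  have h : ∑ i, ‖(vec0 k) i‖ ^ 2 = 1 := by
    rw [sum_eq_single_of_mem (lab k 0) (mem_univ _)]
    · show ‖(if (lab k).symm (lab k 0) = 0 then (1 : ℝ) else 0)‖ ^ 2 = 1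
      rw [if_pos (Equiv.symm_apply_apply _ _)]
      simp
    · intro i _ hi
      show ‖(if (lab k).symm i = 0 then (1 : ℝ) else 0)‖ ^ 2 = 0
      rw [if_neg]
      · simp
      · intro h
        apply hi
        rw [← h, Equiv.apply_symm_apply]
  rw [h, Real.sqrt_one]

lemma inner_vecU (z : XX k) {a a' : Fin (2 ^ k)} (h : a ≠ a') :
    inner ℝ (vecU z a) (vecU z a') = (0 : ℝ) := by
  rw [PiLp.inner_apply]
  show ∑ i : Fin (2 ^ k), inner ℝ
    ((2 ^ k : ℝ)⁻¹ * sgn (z 0 + z ((lab k).symm i) + lin k ((lab k).symm i) ((lab k).symm a)))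
    ((2 ^ k : ℝ)⁻¹ * sgn (z 0 + z ((lab k).symm i) + lin k ((lab k).symm i) ((lab k).symm a')))
    = (0 : ℝ)
  have h1 : ∀ i : Fin (2 ^ k), inner ℝ
      ((2 ^ k : ℝ)⁻¹ * sgn (z 0 + z ((lab k).symm i) + lin k ((lab k).symm i) ((lab k).symm a)))
      ((2 ^ k : ℝ)⁻¹ * sgn (z 0 + z ((lab k).symm i) + lin k ((lab k).symm i) ((lab k).symm a')))
      = (2 ^ k : ℝ)⁻¹ * (2 ^ k : ℝ)⁻¹
        * sgn (lin k ((lab k).symm a + (lab k).symm a') ((lab k).symm i)) := by
    intro i
    have e1 := sgn_add (z 0 + z ((lab k).symm i)) (lin k ((lab k).symm i) ((lab k).symm a))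
    have e2 := sgn_add (z 0 + z ((lab k).symm i)) (lin k ((lab k).symm i) ((lab k).symm a'))
    have e3 : sgn (lin k ((lab k).symm a + (lab k).symm a') ((lab k).symm i))
        = sgn (lin k ((lab k).symm i) ((lab k).symm a))
          * sgn (lin k ((lab k).symm i) ((lab k).symm a')) := by
      rw [lin_add_left, sgn_add, lin_comm _ ((lab k).symm i), lin_comm _ ((lab k).symm i)]
    rw [inn, e1, e2, e3]
    have h2 := sgn_mul_self (z 0 + z ((lab k).symm i))
    linear_combination ((2 ^ k : ℝ)⁻¹ * (2 ^ k : ℝ)⁻¹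
        * (sgn (lin k ((lab k).symm i) ((lab k).symm a))
        * sgn (lin k ((lab k).symm i) ((lab k).symm a')))) * h2
  rw [sum_congr rfl fun i _ => h1 i, ← mul_sum]
  have h2 : ∑ i : Fin (2 ^ k), sgn (lin k ((lab k).symm a + (lab k).symm a') ((lab k).symm i))
      = ∑ d : W k, sgn (lin k ((lab k).symm a + (lab k).symm a') d) :=
    Fintype.sum_equiv (lab k).symm _ _ fun _ => rfl
  rw [h2, sum_sgn_lin, if_neg, mul_zero]
  intro h3
  apply h
  apply (lab k).symm.injective
  have h4 := add_self_W ((lab k).symm a')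
  exact add_right_cancel (h3.trans h4.symm)

/-- the vectors at the vertices of `V` are the sums over the fibres -/
lemma vecV_eq (x : XX k) (γ : NZ k) (b : Fin (2 ^ k)) :
    vecV γ (rv γ.1 x) b = ∑ a ∈ univ.filter (fun a => prj x γ a = b), vecU (ru x) a := by
  rw [fibre_eq]
  split_ifs with hb
  · rw [sum_pair (lab_ne x γ b)]
    ext i
    show (if ((lab k).symm b) (i0 γ) = 0 ∧ lin k ((lab k).symm i) γ.1 = 0 then
      (2 ^ k : ℝ)⁻¹ * (2 * sgn (rv γ.1 x 0 + rv γ.1 x ((lab k).symm i)
        + lin k ((lab k).symm i) ((lab k).symm b))) else 0)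
      = (2 ^ k : ℝ)⁻¹ * sgn (ru x 0 + ru x ((lab k).symm i)
          + lin k ((lab k).symm i)
            ((lab k).symm (lab k ((lab k).symm b + (su x + sv γ.1 x)))))
        + (2 ^ k : ℝ)⁻¹ * sgn (ru x 0 + ru x ((lab k).symm i)
          + lin k ((lab k).symm i)
            ((lab k).symm (lab k ((lab k).symm b + γ.1 + (su x + sv γ.1 x)))))
    rw [Equiv.symm_apply_apply, Equiv.symm_apply_apply]
    set w := (lab k).symm i with hw
    set c := (lab k).symm b with hc
    have hru : ru x 0 + ru x w = x 0 + x w + lin k w (su x) := by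
      rw [su_spec]
      show x 0 + lin k 0 (su x) + (x w + lin k w (su x)) = x 0 + x w + lin k w (su x)
      rw [lin_zero_left]
      ring
    have e1 : lin k w (c + (su x + sv γ.1 x)) = lin k w c + lin k w (su x) + lin k w (sv γ.1 x) := by
      rw [map_add, map_add, add_assoc]
    have e2 : lin k w (c + γ.1 + (su x + sv γ.1 x))
        = lin k w c + lin k w (su x) + lin k w (sv γ.1 x) + lin k w γ.1 := by
      rw [map_add, map_add, map_add]
      ring
    have hch : lin k w (su x) + lin k w (su x) = 0 := CharTwo.add_self_eq_zero _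
    have e3 : ru x 0 + ru x w + lin k w (c + (su x + sv γ.1 x))
        = x 0 + x w + lin k w c + lin k w (sv γ.1 x) := by
      rw [hru, e1]
      linear_combination hch
    have e4 : ru x 0 + ru x w + lin k w (c + γ.1 + (su x + sv γ.1 x))
        = x 0 + x w + lin k w c + lin k w (sv γ.1 x) + lin k w γ.1 := by
      rw [hru, e2]
      linear_combination hch
    rw [e3, e4]
    by_cases hγ : lin k w γ.1 = 0
    · rw [if_pos ⟨hb, hγ⟩, hγ, add_zero]
      have e5 : rv γ.1 x 0 + rv γ.1 x w + lin k w c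
          = x 0 + x w + lin k w c + lin k w (sv γ.1 x) := by
        rw [sv_spec γ.1 x hγ, sv_spec γ.1 x (lin_zero_left _), lin_zero_left]
        ring
      rw [e5]
      ring
    · rw [if_neg fun h => hγ h.2, (zmod2 _).resolve_left hγ, sgn_add _ 1, sgn_one]
      ring
  · rw [sum_empty]
    ext i
    show (if ((lab k).symm b) (i0 γ) = 0 ∧ lin k ((lab k).symm i) γ.1 = 0 then
      (2 ^ k : ℝ)⁻¹ * (2 * sgn (rv γ.1 x 0 + rv γ.1 x ((lab k).symm i)
        + lin k ((lab k).symm i) ((lab k).symm b))) else 0) = 0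
    rw [if_neg fun h => hb h.1]

end

theorem hgame_sdp (k : ℕ) (hk : 1 ≤ k) :
    IsGreatest {r : ℝ | ∃ (n : ℕ) (σ : (hgame k hk).SDPSolution n), σ.obj = r} 1 := by
  refine isGreatest_one (G := hgame k hk) (vec0 k) (fun u => vecU u.out)
    (fun v => vecV v.1 v.2.out) norm_vec0 (fun u => sum_vecU _) (fun u a a' h => inner_vecU _ h)
    ?_ ?_
  · rintro ⟨γ, c⟩
    refine ⟨(c.out, γ), ?_⟩
    show (⟨γ, Quotient.mk _ c.out⟩ : Σ γ : NZ k, Quotient (relV k γ.1)) = ⟨γ, c⟩
    rw [Quotient.out_eq]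
  · rintro ⟨x, γ⟩ b
    exact vecV_eq x γ b

/-- the picked element of the orbit -/
noncomputable def pick {k : ℕ} (L : Quotient (relU k) → Fin (2 ^ k)) (x : XX k) : W k :=
  (lab k).symm (L (Quotient.mk _ x)) + su x

lemma mk_shift {k : ℕ} (x : XX k) (d : W k) :
    Quotient.mk (relU k) (x + sh (lin k) d) = Quotient.mk (relU k) x :=
  Quotient.sound ((relU k).symm ⟨d, rfl⟩)

lemma pick_shift {k : ℕ} (L : Quotient (relU k) → Fin (2 ^ k)) (x : XX k) (d : W k) :
    pick L (x + sh (lin k) d) = pick L x + d := by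
  have h1 : su (x + sh (lin k) d) = su x + d := by
    apply sh_inj
    have h2 := su_spec x
    have h3 := su_spec (x + sh (lin k) d)
    have h4 : ru (x + sh (lin k) d) = ru x := by
      unfold ru
      rw [mk_shift]
    rw [h4, h2] at h3
    have h5 : sh (lin k) (su x) = sh (lin k) d + sh (lin k) (su (x + sh (lin k) d)) := by
      rw [add_assoc] at h3
      exact add_left_cancel h3
    have h6 : sh (lin k) d + sh (lin k) d = 0 := by
      rw [← sh_add, add_self_W]
      funext w
      exact map_zero (lin k w)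
    rw [sh_add, h5]
    calc sh (lin k) (su (x + sh (lin k) d))
        = (sh (lin k) d + sh (lin k) d) + sh (lin k) (su (x + sh (lin k) d)) := by
          rw [h6, zero_add]
      _ = _ := by abel
  unfold pick
  rw [mk_shift, h1, add_assoc]

theorem hgame_value (k : ℕ) (hk : 1 ≤ k) :
    (hgame k hk).value ≤ √2 * ((2 ^ k : ℕ) : ℝ) ^ (-(1 / 8) : ℝ) := by
  unfold Game.value
  have hne : Nonempty (((hgame k hk).U → Fin (2 ^ k)) × ((hgame k hk).V → Fin (2 ^ k))) := by
    have : Nonempty (Fin (2 ^ k)) := ⟨lab k 0⟩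
    infer_instance
  refine ciSup_le fun L => ?_
  obtain ⟨LU, LV⟩ := L
  let a : XX k → W k := pick LU
  let f : XX k → ℝ := fun x => if a x = 0 then 1 else 0
  have hp : ∀ x d, a (x + sh (lin k) d) = a x + d := fun x d => pick_shift _ x d
  have ha : ∀ x d, f (x + sh (lin k) d) = if d = a x then 1 else 0 := by
    intro x d
    show (if a (x + sh (lin k) d) = 0 then (1 : ℝ) else 0) = _
    rw [hp]
    congr 1
    apply propext
    constructor
    · intro h
      have h1 := add_self_W d
      exact (add_right_cancel (h.trans h1.symm)).symm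
    · intro h
      rw [h]
      exact add_self_W _
  let b : W k → XX k → W k := fun γ x =>
    if h : γ ≠ 0 then (lab k).symm (LV ⟨⟨γ, h⟩, Quotient.mk (relV k γ) x⟩) + sv γ x else 0
  have hb : ∀ γ x u, b γ (merge (lin k) γ x u) = b γ x := by
    intro γ x u
    show (if h : γ ≠ 0 then (lab k).symm (LV ⟨⟨γ, h⟩,
      Quotient.mk (relV k γ) (merge (lin k) γ x u)⟩) + sv γ (merge (lin k) γ x u) else 0) = _
    rw [mk_merge, sv_merge]
  have h1 := guess_bound (lin k) ha b hb
  have hcE : (Nat.card (hgame k hk).E : ℝ)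
      = (Fintype.card (XX k) : ℝ) * ((Fintype.card (W k) : ℝ) - 1) := by
    show ((Nat.card (XX k × NZ k) : ℕ) : ℝ) = _
    rw [Nat.card_prod, Nat.card_eq_fintype_card, Nat.card_eq_fintype_card,
      Fintype.card_subtype_compl, Fintype.card_subtype_eq, Nat.cast_mul,
      Nat.cast_sub Fintype.card_pos, Nat.cast_one]
  have hE0 : (0 : ℝ) < (Nat.card (hgame k hk).E : ℝ) := by exact_mod_cast Nat.card_pos
  rw [div_le_iff₀ hE0, hcE]
  have h2 : (Nat.card ((hgame k hk).satisfied LU LV) : ℝ)
      ≤ ∑ γ ∈ univ.erase (0 : W k),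
        ((univ.filter fun x => a x = b γ x ∨ a x = b γ x + γ).card : ℝ) := by
    have h3 : ∑ γ ∈ univ.erase (0 : W k),
        (univ.filter fun x => a x = b γ x ∨ a x = b γ x + γ).card
        = ((univ.erase (0 : W k)).sigma fun γ =>
          univ.filter fun x => a x = b γ x ∨ a x = b γ x + γ).card := (card_sigma _ _).symm
    rw [← Nat.cast_sum, h3]
    have h4 : Nat.card ((hgame k hk).satisfied LU LV)
        ≤ Nat.card ((univ.erase (0 : W k)).sigma fun γ =>
          univ.filter fun x => a x = b γ x ∨ a x = b γ x + γ) := by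
      refine Nat.card_le_card_of_injective
        (fun e => ⟨⟨e.1.2.1, e.1.1⟩, ?_⟩) ?_
      · rw [mem_sigma]
        refine ⟨mem_erase.mpr ⟨e.1.2.2, mem_univ _⟩, mem_filter.mpr ⟨mem_univ _, ?_⟩⟩
        obtain ⟨⟨x, γ⟩, he⟩ := e
        show a x = b γ.1 x ∨ a x = b γ.1 x + γ.1
        have h5 : prj x γ (LU (Quotient.mk _ x)) = LV ⟨γ, Quotient.mk _ x⟩ := he
        have h6 : b γ.1 x = (lab k).symm (LV ⟨γ, Quotient.mk (relV k γ.1) x⟩) + sv γ.1 x := by
          show (if h : γ.1 ≠ 0 then _ else _) = _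
          rw [dif_pos γ.2]
        rw [prj_eq_iff] at h5
        rw [h6]
        have hadd : ∀ c s t d : W k, c = d + (s + t) → c + s = d + t := by
          intro c s t d h
          rw [h]
          calc d + (s + t) + s = d + t + (s + s) := by abel
            _ = d + t := by rw [add_self_W, add_zero]
        rcases h5.2 with h7 | h7
        · left
          apply hadd
          rw [h7, Equiv.symm_apply_apply]
        · right
          have h8 : (lab k).symm (LU (Quotient.mk _ x))
              = (lab k).symm (LV ⟨γ, Quotient.mk (relV k γ.1) x⟩) + γ.1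
                + (su x + sv γ.1 x) := by
            rw [h7, Equiv.symm_apply_apply]
          have h9 := hadd _ _ _ _ h8
          show (lab k).symm (LU (Quotient.mk _ x)) + su x = _
          rw [h9]
          abel
      · rintro ⟨⟨x, γ⟩, he⟩ ⟨⟨x', γ'⟩, he'⟩ h
        have h5 := congrArg Subtype.val h
        have h6 : γ.1 = γ'.1 := congrArg Sigma.fst h5
        have h7 : x = x' := by
          have := Sigma.mk.inj_iff.mp h5
          exact eq_of_heq this.2
        apply Subtype.ext
        exact Prod.ext h7 (Subtype.ext h6)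
    have h8 : Nat.card ((univ.erase (0 : W k)).sigma fun γ =>
          univ.filter fun x => a x = b γ x ∨ a x = b γ x + γ)
        = ((univ.erase (0 : W k)).sigma fun γ =>
          univ.filter fun x => a x = b γ x ∨ a x = b γ x + γ).card := Nat.card_eq_card_toFinset _ |>.trans (by simp)
    rw [h8] at h4
    exact_mod_cast h4
  refine h2.trans (h1.trans (le_of_eq ?_))
  rw [card_W]

/-- the main theorem -/
theorem sdp_gap (k : ℕ) (hk : 1 ≤ k) : ∃ G : Game (2 ^ k),
    (∀ e b, Nat.card {a // G.proj e a = b} = 0 ∨ Nat.card {a // G.proj e a = b} = 2) ∧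
    IsGreatest {r : ℝ | ∃ (n : ℕ) (σ : G.SDPSolution n), σ.obj = r} 1 ∧
    G.value ≤ √2 * ((2 ^ k : ℕ) : ℝ) ^ (-(1 / 8) : ℝ) :=
  ⟨hgame k hk, fun e b => card_fibre e.1 e.2 b, hgame_sdp k hk, hgame_value k hk⟩

end Pool.Agent.MP_ec946a.SDP
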